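import Pool.Agent.H144.TW.Stm

set_option autoImplicit false

/-! # The algebraic main theorem for two-sided ideals -/

namespace Pool.Agent.H144.TW

open Finset

section cosets
variable {F G : Type} [Field F] [Group G]

/-- left translation by `h` permutes the orbits of the cyclic normal subgroup generated by `z` -/
lemma sum_conj (z h : G) (p : ℕ) (hz : orderOf z = p) (hp : 0 < p)
    (hn : (Subgroup.zpowers z).Normal) (c : G → F) (x : G) :
    ∑ b ∈ range p, c (h * (z ^ ((b : ZMod p)).val * x)) =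
      ∑ b ∈ range p, c (z ^ ((b : ZMod p)).val * (h * x)) := by
  classical
  have : NeZero p := ⟨hp.ne'⟩
  have hval : ∀ b ∈ range p, ((b : ZMod p)).val = b := by
    intro b hb
    rw [mem_range] at hb
    exact ZMod.val_cast_of_lt hb
  rw [sum_congr rfl (g := fun b => c (h * (z ^ b * x))) (fun b hb => by rw [hval b hb]),
    sum_congr rfl (f := fun b : ℕ => c (z ^ ((b : ZMod p)).val * (h * x)))
      (g := fun b => c (z ^ b * (h * x))) (fun b hb => by simp only [hval b hb])]
  -- the conjugate of `z`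
  have hmem : ∀ b : ℕ, ∃ b' ∈ range p, h * z ^ b * h⁻¹ = z ^ b' := by
    intro b
    have h1 : h * z ^ b * h⁻¹ ∈ Subgroup.zpowers z :=
      hn.conj_mem _ (Subgroup.npow_mem_zpowers z b) h
    have hfin : IsOfFinOrder z := by
      rw [← orderOf_pos_iff, hz]
      exact hp
    rw [← hfin.mem_powers_iff_mem_zpowers, hfin.mem_powers_iff_mem_range_orderOf, hz] at h1
    obtain ⟨b', hb', h2⟩ := mem_image.1 h1
    exact ⟨b', hb', h2.symm⟩
  choose f hf hf2 using hmem
  refine sum_bij (fun b _ => f b) ?_ ?_ ?_ ?_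
  · intro b _
    exact hf b
  · intro b1 hb1 b2 hb2 h12
    rw [mem_range] at hb1 hb2
    have h1 : h * z ^ b1 * h⁻¹ = h * z ^ b2 * h⁻¹ := by rw [hf2, hf2, h12]
    have h2 : z ^ b1 = z ^ b2 := by
      have := mul_right_cancel h1
      exact mul_left_cancel this
    exact pow_injOn_Iio_orderOf (by rw [hz]; exact hb1) (by rw [hz]; exact hb2) h2
  · intro b' hb'
    -- surjectivity by injectivity on a finite set
    have hinj : Set.InjOn f (range p) := by
      intro b1 hb1 b2 hb2 h12
      rw [mem_coe, mem_range] at hb1 hb2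
      have h1 : h * z ^ b1 * h⁻¹ = h * z ^ b2 * h⁻¹ := by rw [hf2, hf2, h12]
      have h2 : z ^ b1 = z ^ b2 := by
        have := mul_right_cancel h1
        exact mul_left_cancel this
      exact pow_injOn_Iio_orderOf (by rw [hz]; exact hb1) (by rw [hz]; exact hb2) h2
    have hsurj := surjOn_of_injOn_of_card_le f (fun b _ => hf b) hinj le_rfl
    obtain ⟨b, hb, h3⟩ := hsurj hb'
    exact ⟨b, hb, h3⟩
  · intro b _
    have h1 : h * (z ^ b * x) = z ^ f b * (h * x) := by
      rw [← hf2 b]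
      group
    rw [h1]

end cosets

/-- ALG. -/
theorem t_alg (hM : S_MUL) (hFr : S_FRM) (hP1 : S_PRJ1) (hP2 : S_PRJ2) (hD : S_DIMT)
    (hT : S_TENF) : S_ALG := by
  intro F _ _ _ S G _ _ hgood C hC hdim
  classical
  have hq2 : 2 ≤ Fintype.card F := Fintype.one_lt_card
  obtain ⟨z, a, hfr, hz, hμ⟩ := hFr (Fintype.card F) G S hq2 hgood
  obtain ⟨T, hTdef⟩ : ∃ T : (p : ℕ) → ZMod p → G → G, T = fun p b x => z p ^ b.val * x := ⟨_, rfl⟩
  rw [← hTdef] at hfr
  have hprime : ∀ p ∈ S, p.Prime := fun p hp => (hgood p hp).1.1.1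
  have hchar : ∀ p ∈ S, (p : F) ≠ 0 := by
    intro p hp h
    obtain ⟨n, hp', hn⟩ := FiniteField.card F (ringChar F)
    have h1 : ringChar F ∣ p := (ringChar.spec F p).1 h
    have h2 : ringChar F = p := (Nat.prime_dvd_prime_iff_eq hp' (hprime p hp)).1 h1
    have h3 : p ≤ Fintype.card F := by
      rw [hn, h2]
      exact Nat.le_self_pow n.ne_zero p
    have h4 := (hgood p hp).2
    omega
  have hTmem : ∀ B : Submodule F (G → F), TwoSided B →
      ∀ p ∈ S, ∀ b, ∀ c ∈ B, (fun x => c (T p b x)) ∈ B := by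
    intro B hB p _ b c hc
    rw [hTdef]
    exact hB.1 _ c hc
  have hnot : ¬ C ≤ ⨆ p ∈ S, InvT F T p := by
    intro h
    have h1 := Submodule.finrank_mono h
    have h2 := hD F G S T a hfr hprime
    omega
  have hne := hP1 F G S T a hfr hchar C (hTmem C hC) hnot
  -- the two-sided ideal `D`
  have hDts : TwoSided (C ⊓ ZeroT F S T) := by
    constructor
    · intro g c hc
      rw [Submodule.mem_inf] at hc ⊢
      refine ⟨hC.1 g c hc.1, ?_⟩
      intro p hp x
      have hpz := hz p hp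
      have h1 := hc.2 p hp (g * x)
      rw [hTdef] at h1 ⊢
      simp only at h1 ⊢
      rw [sum_conj (z p) g p hpz.1 (hprime p hp).pos hpz.2 c x]
      exact h1
    · intro g c hc
      rw [Submodule.mem_inf] at hc ⊢
      refine ⟨hC.2 g c hc.1, ?_⟩
      intro p hp x
      have h1 := hc.2 p hp (x * g)
      rw [hTdef] at h1 ⊢
      simp only at h1 ⊢
      simp only [mul_assoc]
      exact h1
  obtain ⟨B, hBD, hB0, hBts, hBμ⟩ := hM F G _ hDts hne
  have hBframe : FrameCode (Fintype.card F ^ 2) S T a B := by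
    refine ⟨hTmem B hBts, ?_⟩
    intro p hp c hc
    obtain ⟨μ, hμ1, hμ2⟩ := hμ p hp
    have h1 := hBμ μ hμ2 c hc
    have h2 : (fun x => c (T p ((((Fintype.card F ^ 2 : ℕ) : ZMod p) - 1) * a p x) x)) =
        fun x => c (μ x) := by
      funext x
      rw [hμ1, hTdef]
    rw [h2]
    exact h1
  have hBnot : ¬ B ≤ ⨆ p ∈ S, InvT F T p := by
    intro h
    apply hB0
    rw [eq_bot_iff, ← hP2 F G S T a hfr hchar]
    exact le_inf (hBD.trans inf_le_right) h
  obtain ⟨c, hc, hc0, hcw⟩ := hT F S G T a (fun p hp => ⟨hprime p hp, (hgood p hp).2⟩) hfr B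
    hBframe hBnot
  exact ⟨c, (hBD.trans inf_le_left) hc, hc0, hcw⟩

end Pool.Agent.H144.TW
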