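import Pool.Agent.H144.TW.Stm

set_option autoImplicit false

/-! # The main theorem on two-sided ideals, from the algebraic part and the number theoretic part -/

namespace Pool.Agent.H144.TW

open Finset Filter

/-- an analytic inequality for the threshold -/
lemma ev_threshold (η : ℝ) (hη : 0 < η) (hη1 : η < 1) : ∀ᶠ t : ℝ in atTop,
    t * Real.exp (-t ^ (1 - η / 2)) < Real.exp (-t ^ (1 - η)) := by
  have h1 := (isLittleO_log_rpow_atTop (r := 1 - η / 2) (by linarith)).def
    (show (0 : ℝ) < 1 / 4 by norm_num)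
  have h2 : Tendsto (fun t : ℝ => t ^ (η / 2)) atTop atTop := tendsto_rpow_atTop (by linarith)
  filter_upwards [h1, h2.eventually (eventually_ge_atTop 2), eventually_gt_atTop 1] with t ht1 ht2 ht3
  have ht0 : 0 < t := by linarith
  have hpos : 0 < t ^ (1 - η) := Real.rpow_pos_of_pos ht0 _
  have hmul : t ^ (1 - η / 2) = t ^ (1 - η) * t ^ (η / 2) := by
    rw [← Real.rpow_add ht0]
    congr 1
    ring
  rw [Real.norm_of_nonneg (Real.log_nonneg ht3.le), Real.norm_of_nonneg (by positivity)] at ht1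
  have hlt : Real.log t - t ^ (1 - η / 2) < - t ^ (1 - η) := by
    rw [hmul] at ht1 ⊢
    nlinarith
  calc t * Real.exp (-t ^ (1 - η / 2)) = Real.exp (Real.log t - t ^ (1 - η / 2)) := by
        rw [sub_eq_add_neg (Real.log t), Real.exp_add, Real.exp_log ht0]
    _ < Real.exp (-t ^ (1 - η)) := Real.exp_lt_exp.2 hlt

/-- the main theorem -/
theorem main (hA : S_ALG) (hN : S_NTG) (η : ℝ) (hη : 0 < η) (hη1 : η < 1) :
    ∃ L : Set ℕ,
      Tendsto (fun N : ℕ => (Set.ncard {n : ℕ | n < N ∧ n ∉ L} : ℝ) / N) atTop (nhds 0) ∧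
      ∀ (F : Type) [Field F] [Fintype F] [DecidableEq F], ∃ c : ℝ, 0 < c ∧
        ∀ᶠ n : ℕ in atTop, n ∈ L → ∀ (G : Type) [Group G] [Fintype G], Fintype.card G = n →
          ∀ C : Submodule F (G → F),
            (∀ g : G, ∀ w ∈ C, (fun x => w (g * x)) ∈ C) →
            (∀ g : G, ∀ w ∈ C, (fun x => w (x * g)) ∈ C) →
            n * Real.exp (-Real.log n ^ (1 - η)) ≤ Module.finrank F C →
            ∃ w ∈ C, w ≠ 0 ∧ (hammingNorm w : ℝ) ≤
              n * Real.exp (-(c * (Real.log (Real.log n) / Real.log (Real.log (Real.log n))))) := by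
  classical
  obtain ⟨c', hc', hlim⟩ := hN (η / 2) (by linarith) (by linarith)
  refine ⟨{n | ManyG c' (η / 2) n}, ?_, ?_⟩
  · refine hlim.congr ?_
    intro N
    congr 2
    rw [← Set.ncard_coe_finset]
    congr 1
    ext n
    simp
  intro F _ _ _
  obtain ⟨q, hq⟩ : ∃ q, q = Fintype.card F := ⟨_, rfl⟩
  have hq2 : 2 ≤ q := by rw [hq]; exact Fintype.one_lt_card
  refine ⟨c' / (q ^ 2 + 1), by positivity, ?_⟩
  have hlogN : Tendsto (fun N : ℕ => Real.log N) atTop atTop :=
    Real.tendsto_log_atTop.comp tendsto_natCast_atTop_atTop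
  have hlog2N : Tendsto (fun N : ℕ => Real.log (Real.log N)) atTop atTop :=
    Real.tendsto_log_atTop.comp hlogN
  have hlog3N : Tendsto (fun N : ℕ => Real.log (Real.log (Real.log N))) atTop atTop :=
    Real.tendsto_log_atTop.comp hlog2N
  have hexp : Tendsto (fun N : ℕ => Real.exp (Real.log N ^ (1 - η / 2))) atTop atTop :=
    Real.tendsto_exp_atTop.comp ((tendsto_rpow_atTop (by linarith)).comp hlogN)
  have hsmall : ∀ᶠ t : ℝ in atTop, c' * Real.log t + 1 ≤ t := by
    have h1 := Real.isLittleO_log_id_atTop.def (show (0 : ℝ) < 1 / (2 * c') by positivity)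
    filter_upwards [h1, eventually_ge_atTop 2] with t ht ht2
    rw [Real.norm_of_nonneg (Real.log_nonneg (by linarith)), id, Real.norm_of_nonneg (by linarith)]
      at ht
    have h3 : c' * Real.log t ≤ c' * (1 / (2 * c') * t) := mul_le_mul_of_nonneg_left ht hc'.le
    have h4 : c' * (1 / (2 * c') * t) = t / 2 := by
      field_simp
    linarith
  filter_upwards [hlogN.eventually (ev_threshold η hη hη1),
    hexp.eventually (eventually_ge_atTop ((q : ℝ) + 1)), hlog3N.eventually (eventually_ge_atTop 1),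
    hlog2N.eventually (eventually_ge_atTop 0), hlogN.eventually hsmall,
    eventually_ge_atTop 1] with n h1 h2 h3 h4 h5 h6 hn
  intro G _ _ hcard C hCl hCr hdim
  obtain ⟨S', hS', hcardS⟩ := hn
  obtain ⟨X, hX⟩ : ∃ X, X = c' * (Real.log (Real.log n) / Real.log (Real.log (Real.log n))) :=
    ⟨_, rfl⟩
  rw [← hX] at hcardS
  have hX0 : 0 ≤ X := by
    rw [hX]
    exact mul_nonneg hc'.le (div_nonneg h4 (by linarith))
  have hXt : X + 1 ≤ Real.log n := by
    have e1 : Real.log (Real.log n) / Real.log (Real.log (Real.log n)) ≤ Real.log (Real.log n) :=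
      div_le_self h4 h3
    have e2 : X ≤ c' * Real.log (Real.log n) := by
      rw [hX]
      exact mul_le_mul_of_nonneg_left e1 hc'.le
    linarith
  -- a subset of the right size
  obtain ⟨S, hSS', hScard⟩ := exists_subset_card_eq (show ⌈X⌉₊ ≤ S'.card from Nat.ceil_le.2 hcardS)
  have hn0 : (0 : ℝ) < n := by exact_mod_cast h6
  have hkn : (S.card : ℝ) ≤ Real.log n := by
    rw [hScard]
    exact (Nat.ceil_lt_add_one hX0).le.trans hXt
  have hlogpos : 0 < Real.log n := by
    by_contra hle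
    push Not at hle
    have : X + 1 ≤ 0 := hXt.trans hle
    linarith
  obtain ⟨w, hw, hw0, hwt⟩ := hA F S G (by
    intro p hp
    have e1 := hS' p (hSS' hp)
    rw [hcard]
    refine ⟨e1.1, ?_⟩
    rw [← hq]
    have e3 : ((q + 1 : ℕ) : ℝ) < p := by
      push_cast
      exact h2.trans_lt e1.2
    exact_mod_cast e3) C ⟨hCl, hCr⟩ (by
    have e0 : ((∑ p ∈ S, Fintype.card G / p : ℕ) : ℝ) < Module.finrank F C := by
      refine lt_of_le_of_lt ?_ (lt_of_lt_of_le (mul_lt_mul_of_pos_left h1 hn0) hdim)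
      push_cast
      calc ∑ p ∈ S, ((Fintype.card G / p : ℕ) : ℝ)
          ≤ ∑ p ∈ S, n * Real.exp (-Real.log n ^ (1 - η / 2)) := by
            apply sum_le_sum
            intro p hp
            have e1 := (hS' p (hSS' hp)).2
            have e4 : (0 : ℝ) < p := (Real.exp_pos _).trans e1
            rw [hcard]
            refine Nat.cast_div_le.trans ?_
            rw [Real.exp_neg, ← div_eq_mul_inv]
            exact div_le_div_of_nonneg_left hn0.le (Real.exp_pos _) e1.le
        _ = S.card * (n * Real.exp (-Real.log n ^ (1 - η / 2))) := by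
            rw [sum_const, nsmul_eq_mul]
        _ ≤ Real.log n * (n * Real.exp (-Real.log n ^ (1 - η / 2))) :=
            mul_le_mul_of_nonneg_right hkn (by positivity)
        _ = n * (Real.log n * Real.exp (-Real.log n ^ (1 - η / 2))) := by ring
    exact_mod_cast e0)
  refine ⟨w, hw, hw0, ?_⟩
  rw [← hq, hcard] at hwt
  have hwt' : ((q : ℝ) ^ 2 + 1) ^ S.card * hammingNorm w ≤ ((q : ℝ) ^ 2) ^ S.card * n := by
    exact_mod_cast hwt
  have hQ : (0 : ℝ) < (q : ℝ) ^ 2 + 1 := by positivity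
  have hratio : ((q : ℝ) ^ 2 / ((q : ℝ) ^ 2 + 1)) ^ S.card ≤
      Real.exp (-(c' / ((q : ℝ) ^ 2 + 1) *
        (Real.log (Real.log n) / Real.log (Real.log (Real.log n))))) := by
    have e1 : (q : ℝ) ^ 2 / ((q : ℝ) ^ 2 + 1) ≤ Real.exp (-(1 / ((q : ℝ) ^ 2 + 1))) := by
      have e2 := Real.add_one_le_exp (-(1 / ((q : ℝ) ^ 2 + 1)))
      have e3 : (q : ℝ) ^ 2 / ((q : ℝ) ^ 2 + 1) = -(1 / ((q : ℝ) ^ 2 + 1)) + 1 := by
        field_simp
        ring
      rw [e3]
      exact e2
    refine (pow_le_pow_left₀ (by positivity) e1 _).trans ?_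
    rw [← Real.exp_nat_mul]
    apply Real.exp_le_exp.2
    have e4 : X ≤ S.card := by
      rw [hScard]
      exact Nat.le_ceil X
    have e5 : c' / ((q : ℝ) ^ 2 + 1) *
        (Real.log (Real.log n) / Real.log (Real.log (Real.log n))) = X * (1 / ((q : ℝ) ^ 2 + 1)) := by
      rw [hX]
      ring
    rw [e5]
    have e6 : 0 ≤ 1 / ((q : ℝ) ^ 2 + 1) := by positivity
    nlinarith [mul_le_mul_of_nonneg_right e4 e6]
  have hfin : (hammingNorm w : ℝ) ≤ n * ((q : ℝ) ^ 2 / ((q : ℝ) ^ 2 + 1)) ^ S.card := by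
    rw [div_pow, mul_div_assoc', le_div_iff₀ (by positivity)]
    linarith
  exact hfin.trans (mul_le_mul_of_nonneg_left hratio hn0.le)

end Pool.Agent.H144.TW
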