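import Pool.Agent.H144.TW.Stm
import Pool.Agent.H144.CY.P_LOW1

set_option autoImplicit false

/-!
LOWL: lower bound for the sum of `1 / p` over the large good primes, adapted from the part LOW of
helper707 and helper633.
-/

namespace Pool.Agent.H144.TW

open Finset Filter
open Pool.Agent.H144.CY
open Pool.Agent.H144.CY.LOW1

namespace LOWL

lemma log_bound {u θ : ℝ} (hθ : 0 < θ) (hθ1 : θ ≤ 1 / 2) (hu : 12 / θ ≤ u) {J1 J2 : ℕ}
    (h1 : J1 = ⌈2 * Real.exp ((1 - θ) * u)⌉₊) (h2 : J2 = ⌊Real.exp u / 2⌋₊) :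
    1 ≤ J1 ∧ J1 ≤ J2 ∧ θ / 2 * u ≤ Real.log J2 - Real.log J1 := by
  have hθu : 12 ≤ θ * u := by
    rw [div_le_iff₀ hθ] at hu
    linarith
  have hu0 : 0 < u := by
    by_contra h
    push Not at h
    nlinarith
  have hu24 : 24 ≤ u := by nlinarith
  have he : 0 < Real.exp ((1 - θ) * u) := Real.exp_pos _
  have he1 : 1 ≤ Real.exp ((1 - θ) * u) := Real.one_le_exp (by nlinarith)
  have hJ1 : (J1 : ℝ) ≤ 3 * Real.exp ((1 - θ) * u) := by
    have := Nat.ceil_lt_add_one (show 0 ≤ 2 * Real.exp ((1 - θ) * u) by positivity)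
    rw [← h1] at this
    linarith
  have hJ1' : 1 ≤ J1 := by
    rw [h1]
    exact Nat.one_le_ceil_iff.2 (by positivity)
  have hE : Real.exp 3 = Real.exp 1 ^ 3 := by
    rw [← Real.exp_nat_mul]
    norm_num
  have hE1 := Real.exp_one_gt_d9
  have hE3 : (12 : ℝ) ≤ Real.exp 3 := by
    rw [hE]
    have : (2.5 : ℝ) ^ 3 ≤ Real.exp 1 ^ 3 := pow_le_pow_left₀ (by norm_num) (by linarith) 3
    norm_num at this ⊢
    linarith
  have hbig : (4 : ℝ) ≤ Real.exp u := by
    have h5 : Real.exp 3 ≤ Real.exp u := Real.exp_le_exp.2 (by linarith)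
    linarith
  have hJ2 : Real.exp u / 4 ≤ J2 := by
    have := Nat.lt_floor_add_one (Real.exp u / 2)
    rw [← h2] at this
    linarith
  have hJ1pos : (0 : ℝ) < J1 := by exact_mod_cast hJ1'
  have hsplit : Real.exp u = Real.exp ((1 - θ) * u) * Real.exp (θ / 2 * u) * Real.exp (θ / 2 * u) := by
    rw [← Real.exp_add, ← Real.exp_add]
    congr 1
    ring
  have h12 : (12 : ℝ) ≤ Real.exp (θ / 2 * u) := by
    have h5 : Real.exp 3 ≤ Real.exp (θ / 2 * u) := Real.exp_le_exp.2 (by linarith)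
    linarith
  have h9 : (J1 : ℝ) * Real.exp (θ / 2 * u) ≤ J2 := by
    refine le_trans ?_ hJ2
    rw [hsplit]
    have hpos := Real.exp_pos (θ / 2 * u)
    have e1 : (J1 : ℝ) * Real.exp (θ / 2 * u) ≤ 3 * Real.exp ((1 - θ) * u) * Real.exp (θ / 2 * u) :=
      mul_le_mul_of_nonneg_right hJ1 hpos.le
    have e2 : 0 ≤ Real.exp ((1 - θ) * u) * Real.exp (θ / 2 * u) * (Real.exp (θ / 2 * u) - 12) :=
      mul_nonneg (by positivity) (by linarith)
    nlinarith
  have hone : 1 ≤ Real.exp (θ / 2 * u) := Real.one_le_exp (by positivity)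
  refine ⟨hJ1', ?_, ?_⟩
  · have : (J1 : ℝ) ≤ J2 := by nlinarith
    exact_mod_cast this
  · have h11 : Real.log (J1 * Real.exp (θ / 2 * u)) ≤ Real.log J2 :=
      Real.log_le_log (by positivity) h9
    rw [Real.log_mul hJ1pos.ne' (Real.exp_pos _).ne', Real.log_exp] at h11
    linarith

end LOWL

open LOWL

/-- LOWL. -/
theorem t_lowl (h : S_DYA1) : S_LOWL := by
  intro η hη hη1
  obtain ⟨θ, hθdef⟩ : ∃ θ : ℝ, θ = min η (1 / 2) := ⟨_, rfl⟩
  have hθ : 0 < θ := by rw [hθdef]; exact lt_min hη (by norm_num)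
  have hθ1 : θ ≤ 1 / 2 := by rw [hθdef]; exact min_le_right _ _
  have hθη : θ ≤ η := by rw [hθdef]; exact min_le_left _ _
  obtain ⟨c, v0, hc, hD⟩ := h 2 Nat.prime_two
  refine ⟨c * θ / 4, by positivity, ?_⟩
  have hD' : ∀ (v : ℝ) (U : ℕ), v0 ≤ v → v ≤ 3 * Real.log (Real.log U) →
      c * (U / (Real.log U * Real.log v ^ 1)) ≤ ((GG 2 v U).card : ℝ) := hD
  have hlogN : Tendsto (fun N : ℕ => Real.log N) atTop atTop :=
    Real.tendsto_log_atTop.comp tendsto_natCast_atTop_atTop
  have hlog2N : Tendsto (fun N : ℕ => Real.log (Real.log N)) atTop atTop :=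
    Real.tendsto_log_atTop.comp hlogN
  have hev : ∀ᶠ N : ℕ in atTop,
      c * θ / 4 * (Real.log (Real.log N) / Real.log (Real.log (Real.log N))) ≤
        ∑ p ∈ PPL η N, (1 : ℝ) / p := by
    filter_upwards [hlog2N.eventually (eventually_ge_atTop v0),
      hlog2N.eventually (eventually_ge_atTop (12 / θ)), hlog2N.eventually (eventually_ge_atTop 12),
      hlogN.eventually (eventually_gt_atTop 1),
      eventually_ge_atTop 1] with N h2 h3' h3 h4 h5
    set u : ℝ := Real.log (Real.log N) with hu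
    have hN0 : (0 : ℝ) < N := by exact_mod_cast h5
    have heu : Real.exp u = Real.log N := Real.exp_log (by linarith)
    have hlu : 0 < Real.log u := Real.log_pos (by linarith)
    have hlN : 0 < Real.log N := by linarith
    have hpow : Real.exp ((1 - θ) * u) = Real.log N ^ (1 - θ) := by
      rw [Real.rpow_def_of_pos hlN]
      congr 1
      rw [← hu]
      ring
    obtain ⟨hJ1, hJ12, hlog⟩ := LOWL.log_bound hθ hθ1 h3'
      (J1 := ⌈2 * Real.exp ((1 - θ) * u)⌉₊) (J2 := ⌊Real.exp u / 2⌋₊) rfl rfl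
    set J1 : ℕ := ⌈2 * Real.exp ((1 - θ) * u)⌉₊ with hJ1d
    set J2 : ℕ := ⌊Real.exp u / 2⌋₊ with hJ2d
    have hl2 := Real.log_two_gt_d9
    -- the inclusion
    have hsub : ∀ j ∈ Ico J1 J2, GG 2 u (2 ^ j) ⊆ PPL η N := by
      classical
      intro j hj p hp
      rw [mem_Ico] at hj
      obtain ⟨⟨p1, p2⟩, p3⟩ := mem_GG.1 hp
      unfold PPL
      rw [mem_filter]
      constructor
      · refine mem_PP.2 ⟨⟨by omega, ?_⟩, p3⟩
        refine p2.trans (Nat.le_floor ?_)
        have h6 : ((j + 1 : ℕ) : ℝ) ≤ Real.exp u / 2 :=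
          (Nat.cast_le.2 (by omega : j + 1 ≤ J2)).trans (Nat.floor_le (by positivity))
        have h7 : Real.log ((2 * 2 ^ j : ℕ) : ℝ) ≤ Real.log (Real.sqrt N) := by
          rw [Real.log_sqrt hN0.le, ← heu]
          have h8 : ((2 * 2 ^ j : ℕ) : ℝ) = 2 ^ (j + 1) := by
            push_cast
            ring
          rw [h8, Real.log_pow]
          have h9 : Real.log 2 ≤ 1 := by
            have := Real.log_two_lt_d9
            linarith
          have h10 : (0 : ℝ) ≤ ((j + 1 : ℕ) : ℝ) := Nat.cast_nonneg _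
          nlinarith
        exact (Real.log_le_log_iff (by positivity) (Real.sqrt_pos.2 hN0)).1 h7
      · have hj1 : 2 * Real.exp ((1 - θ) * u) ≤ j := (Nat.le_ceil _).trans (Nat.cast_le.2 hj.1)
        have hp1 : (2 : ℝ) ^ j < p := by exact_mod_cast p1
        have hmono : Real.log N ^ (1 - η) ≤ Real.log N ^ (1 - θ) :=
          Real.rpow_le_rpow_of_exponent_le h4.le (by linarith)
        refine lt_of_le_of_lt ?_ hp1
        have h6 : (2 : ℝ) ^ j = Real.exp (j * Real.log 2) := by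
          rw [← Real.log_pow, Real.exp_log (by positivity)]
        rw [h6]
        apply Real.exp_le_exp.2
        refine hmono.trans ?_
        rw [← hpow]
        have h7 := Real.exp_pos ((1 - θ) * u)
        nlinarith
    have hdisj : ∀ i ∈ Ico J1 J2, ∀ j ∈ Ico J1 J2, i ≠ j →
        Disjoint (GG 2 u (2 ^ i)) (GG 2 u (2 ^ j)) := by
      have key : ∀ i j : ℕ, i < j → Disjoint (GG 2 u (2 ^ i)) (GG 2 u (2 ^ j)) := by
        intro i j hij
        rw [Finset.disjoint_left]
        intro p hp hp'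
        obtain ⟨⟨-, p2⟩, -⟩ := mem_GG.1 hp
        obtain ⟨⟨p1, -⟩, -⟩ := mem_GG.1 hp'
        have h6 : 2 ^ (i + 1) ≤ 2 ^ j := Nat.pow_le_pow_right (by norm_num) hij
        rw [pow_succ] at h6
        omega
      intro i _ j _ hij
      rcases lt_or_gt_of_ne hij with h' | h'
      · exact key i j h'
      · exact (key j i h').symm
    have hsum : ∑ j ∈ Ico J1 J2, ∑ p ∈ GG 2 u (2 ^ j), (1 : ℝ) / p ≤
        ∑ p ∈ PPL η N, (1 : ℝ) / p := by
      classical
      rw [← sum_biUnion hdisj]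
      exact sum_le_sum_of_subset_of_nonneg (biUnion_subset.2 hsub) fun p _ _ => by positivity
    -- the terms
    have hterm : ∀ j ∈ Ico J1 J2, c / (2 * Real.log u ^ 1) * (1 / j) ≤
        ∑ p ∈ GG 2 u (2 ^ j), (1 : ℝ) / p := by
      intro j hj
      rw [mem_Ico] at hj
      have hj0 : (0 : ℝ) < j := by exact_mod_cast (by omega : 0 < j)
      have hlt : 0 < Real.log 2 := Real.log_pos (by norm_num)
      have hl2' : Real.log ((2 ^ j : ℕ) : ℝ) = j * Real.log 2 := by
        push_cast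
        rw [Real.log_pow]
      have h6 : u ≤ 3 * Real.log (Real.log ((2 ^ j : ℕ) : ℝ)) := by
        rw [hl2']
        have h7 : Real.exp (u / 3) ≤ j * Real.log 2 := by
          have h8 : 2 * Real.exp ((1 - θ) * u) ≤ j := (Nat.le_ceil _).trans (Nat.cast_le.2 hj.1)
          have h9 : Real.exp (u / 3) ≤ Real.exp ((1 - θ) * u) := Real.exp_le_exp.2 (by nlinarith)
          have h13 := Real.exp_pos (u / 3)
          nlinarith
        have h15 := (Real.le_log_iff_exp_le (by positivity)).2 h7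
        linarith
      have h7 := hD' u (2 ^ j) h2 h6
      rw [hl2'] at h7
      refine le_trans ?_ (sum_GG 2 u (2 ^ j) (Nat.one_le_two_pow))
      rw [le_div_iff₀ (by positivity)]
      refine le_trans ?_ h7
      have h8 : ((2 ^ j : ℕ) : ℝ) = 2 ^ j := by push_cast; rfl
      rw [h8]
      have h9 : Real.log 2 ≤ 1 := by
        have := Real.log_two_lt_d9
        linarith
      have e1 : c / (2 * Real.log u ^ 1) * (1 / j) * (2 * 2 ^ j) =
          c * (2 ^ j / (j * 1 * Real.log u ^ 1)) := by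
        field_simp
      rw [e1]
      refine mul_le_mul_of_nonneg_left ?_ hc.le
      refine div_le_div_of_nonneg_left (by positivity) (by positivity) ?_
      gcongr
    have hfin : c / (2 * Real.log u ^ 1) * (θ / 2 * u) ≤ ∑ p ∈ PPL η N, (1 : ℝ) / p := by
      refine le_trans ?_ hsum
      refine le_trans ?_ (sum_le_sum hterm)
      rw [← mul_sum]
      refine mul_le_mul_of_nonneg_left ?_ (by positivity)
      exact hlog.trans (log_sub_le J1 hJ1 J2 hJ12)
    refine le_trans ?_ hfin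
    have e2 : c / (2 * Real.log u ^ 1) * (θ / 2 * u) = c * θ / 4 * u / Real.log u ^ 1 := by
      field_simp
      ring
    rw [e2, pow_one]
    refine le_of_eq ?_
    ring
  obtain ⟨N0, hN0⟩ := eventually_atTop.1 hev
  exact ⟨N0, hN0⟩

end Pool.Agent.H144.TW
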