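import Pool.Agent.H144.TW.Stm

/-! Part AUT of the project TS, written by helper348. -/

/-! AUT: the multiplier automorphism (task of helper144). -/

set_option autoImplicit false

namespace Pool.Agent.H144.TW.PAUT

theorem t_aut : Pool.Agent.H144.TW.S_AUT := by
  intro G _ _ q p hp hp2 hpq hst A H hA hAc hcompl hact
  classical
  have hq : 1 ≤ q := by
    rcases Nat.eq_zero_or_pos q with h | h
    · exact absurd (h ▸ dvd_zero p) hpq
    · exact h
  have : Fact p.Prime := ⟨hp⟩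
  have hcyc : IsCyclic A := isCyclic_of_prime_card hAc
  have hpowA : ∀ a ∈ A, a ^ p = 1 := by
    intro a ha
    have h1 : (⟨a, ha⟩ : A) ^ Nat.card A = 1 := pow_card_eq_one'
    rw [hAc] at h1
    exact congrArg Subtype.val h1
  have hcommA : ∀ a ∈ A, ∀ b ∈ A, a * b = b * a := by
    intro a ha b hb
    have := mul_comm' (⟨a, ha⟩ : A) ⟨b, hb⟩
    exact congrArg Subtype.val this
  have hdec : ∀ g : G, ∃ a ∈ A, ∃ h ∈ H, g = a * h := by
    intro g
    obtain ⟨x, hx⟩ := hcompl.2 g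
    exact ⟨x.1, x.1.2, x.2, x.2.2, hx.symm⟩
  have huniq : ∀ a ∈ A, ∀ h ∈ H, ∀ a' ∈ A, ∀ h' ∈ H, a * h = a' * h' → a = a' ∧ h = h' := by
    intro a ha h hh a' ha' h' hh' he
    have := @hcompl.1 (⟨a, ha⟩, ⟨h, hh⟩) (⟨a', ha'⟩, ⟨h', hh'⟩) he
    simp only [Prod.mk.injEq, Subtype.mk.injEq] at this
    exact this
  choose α hα β hβ hαβ using hdec
  have hα' : ∀ a ∈ A, ∀ h ∈ H, α (a * h) = a ∧ β (a * h) = h := by
    intro a ha h hh
    exact huniq _ (hα _) _ (hβ _) _ ha _ hh (hαβ (a * h)).symm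
  let f : G → G := fun g => α g ^ (q ^ 2) * β g
  have hf : ∀ a ∈ A, ∀ h ∈ H, f (a * h) = a ^ (q ^ 2) * h := by
    intro a ha h hh
    obtain ⟨h1, h2⟩ := hα' a ha h hh
    simp only [f, h1, h2]
  have hmul : ∀ g g' : G, f (g * g') = f g * f g' := by
    intro g g'
    have e1 : g * g' = (α g * (β g * α g' * (β g)⁻¹)) * (β g * β g') := by
      nth_rewrite 1 [hαβ g]
      nth_rewrite 1 [hαβ g']
      group
    have hc1 : β g * α g' * (β g)⁻¹ ∈ A := hA.conj_mem _ (hα g') _
    rw [e1, hf _ (A.mul_mem (hα g) hc1) _ (H.mul_mem (hβ g) (hβ g'))]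
    have hcomm : Commute (α g) (β g * α g' * (β g)⁻¹) := hcommA _ (hα g) _ hc1
    rw [hcomm.mul_pow, conj_pow]
    simp only [f]
    group
  have hone : f 1 = 1 := by
    have := hf 1 A.one_mem 1 H.one_mem
    simpa using this
  let F : G →* G := { toFun := f, map_one' := hone, map_mul' := hmul }
  have hinj : Function.Injective F := by
    rw [injective_iff_map_eq_one]
    intro g hg
    have h1 : α g ^ (q ^ 2) * β g = 1 * 1 := by rw [mul_one]; exact hg
    obtain ⟨h2, h3⟩ := huniq _ (A.pow_mem (hα g) _) _ (hβ g) _ A.one_mem _ H.one_mem h1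
    have h4 : orderOf (α g) ∣ Nat.gcd p (q ^ 2) :=
      Nat.dvd_gcd (orderOf_dvd_of_pow_eq_one (hpowA _ (hα g))) (orderOf_dvd_of_pow_eq_one h2)
    have h5 : Nat.gcd p (q ^ 2) = 1 :=
      Nat.Coprime.pow_right 2 ((Nat.Prime.coprime_iff_not_dvd hp).2 hpq)
    rw [h5, Nat.dvd_one, orderOf_eq_one_iff] at h4
    rw [hαβ g, h4, h3, mul_one]
  let μ : G ≃* G := MulEquiv.ofBijective F (Finite.injective_iff_bijective.1 hinj)
  have hμ : ∀ g, μ g = f g := fun g => rfl
  refine ⟨μ, fun a ha h hh => by rw [hμ]; exact hf a ha h hh, ?_⟩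
  intro g
  have ha := hα g
  have hh := hβ g
  have hg := hαβ g
  have hμg : μ g = α g ^ (q ^ 2) * β g := rfl
  rcases hact (β g) with hc | hc
  · obtain ⟨s, t, hs, ht⟩ := hst
    refine ⟨s, t, ?_⟩
    have hcm : Commute (α g) (β g) := by
      have := hc _ ha
      have h1 : β g * α g = α g * β g := by
        calc β g * α g = (β g * α g * (β g)⁻¹) * β g := by group
          _ = α g * β g := by rw [this]
      exact h1.symm
    have e1 : g ^ (q ^ s) = α g ^ (q ^ s) * β g ^ (q ^ s) := by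
      nth_rewrite 1 [hg]
      exact hcm.mul_pow _
    have e2 : μ g ^ (q ^ t) = α g ^ (q ^ (t + 2)) * β g ^ (q ^ t) := by
      rw [hμg, (hcm.pow_left _).mul_pow, ← pow_mul, ← pow_add, add_comm 2 t]
    have hcardH : Nat.card H = Fintype.card G / p := by
      have h1 := hcompl.card_mul_card
      rw [hAc] at h1
      rw [← Nat.card_eq_fintype_card (α := G), ← h1, Nat.mul_div_cancel_left _ hp.pos]
    have hpowH : β g ^ (Fintype.card G / p) = 1 := by
      have h1 : (⟨β g, hh⟩ : H) ^ Nat.card H = 1 := pow_card_eq_one'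
      rw [hcardH] at h1
      exact congrArg Subtype.val h1
    have e3 : α g ^ (q ^ s) = α g ^ (q ^ (t + 2)) := by
      have : q ^ s ≡ q ^ (t + 2) [MOD orderOf (α g)] :=
        hs.of_dvd (orderOf_dvd_of_pow_eq_one (hpowA _ ha))
      exact pow_eq_pow_iff_modEq.2 this
    have e4 : β g ^ (q ^ s) = β g ^ (q ^ t) := by
      have : q ^ s ≡ q ^ t [MOD orderOf (β g)] :=
        ht.of_dvd (orderOf_dvd_of_pow_eq_one hpowH)
      exact pow_eq_pow_iff_modEq.2 this
    rw [e1, e2, e3, e4]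
  · refine ⟨0, 0, ?_⟩
    rw [pow_zero, pow_one, pow_one, isConj_iff]
    set b : G := (α g ^ (q ^ 2 - 1)) ^ ((p + 1) / 2) with hb
    have hbA : b ∈ A := A.pow_mem (A.pow_mem ha _) _
    have hpodd : (p + 1) / 2 * 2 = p + 1 := by
      have := hp.eq_two_or_odd
      omega
    have hb2 : b * b = α g ^ (q ^ 2 - 1) := by
      rw [← pow_two, hb, ← pow_mul, hpodd, pow_succ, hpowA _ (A.pow_mem ha _), one_mul]
    refine ⟨b, ?_⟩
    have hcb := hc _ (A.inv_mem hbA)
    rw [inv_inv] at hcb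
    have hq2 : q ^ 2 - 1 + 1 = q ^ 2 := Nat.sub_add_cancel (Nat.one_le_pow _ _ hq)
    calc b * g * b⁻¹ = b * α g * (β g * b⁻¹ * (β g)⁻¹) * β g := by
          nth_rewrite 1 [hg]; group
      _ = b * α g * b * β g := by rw [hcb]
      _ = α g * (b * b) * β g := by rw [hcommA b hbA _ ha]; group
      _ = α g ^ (q ^ 2) * β g := by rw [hb2, ← pow_succ', hq2]
      _ = μ g := hμg.symm

end Pool.Agent.H144.TW.PAUT
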