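import Pool.Agent.H144.TW.Stm

/-! Part DIMT of the project TS, written by helper333. -/

set_option autoImplicit false

/-!
# DIMT: dimension of the sum of the spaces of invariant functions
-/

namespace Pool.Agent.H144.TW.PDIMT

open Finset Pool.Agent.H144.TW

theorem finrank_iSup {F : Type} [Field F] {M : Type} [AddCommGroup M] [Module F M]
    [FiniteDimensional F M] (S : Finset ℕ) (V : ℕ → Submodule F M) :
    Module.finrank F (⨆ p ∈ S, V p : Submodule F M) ≤ ∑ p ∈ S, Module.finrank F (V p) := by
  classical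
  induction S using Finset.induction_on with
  | empty => simp
  | insert p S hp ih =>
    rw [Finset.iSup_insert, Finset.sum_insert hp]
    exact (Submodule.finrank_add_le_finrank_add_finrank _ _).trans (Nat.add_le_add_left ih _)

theorem finrank_inv {F : Type} [Field F] {Ω : Type} [Fintype Ω] {S : Finset ℕ}
    {T : (p : ℕ) → ZMod p → Ω → Ω} {a : (p : ℕ) → Ω → ZMod p} (hfr : Frame S T a) {p : ℕ}
    (hpS : p ∈ S) (hp : p.Prime) : Module.finrank F (InvT F T p) ≤ Fintype.card Ω / p := by
  classical
  obtain ⟨h1, h2, h3, -, -⟩ := hfr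
  haveI : NeZero p := ⟨hp.ne_zero⟩
  -- the restriction to the zeros of the coordinate
  let r : InvT F T p →ₗ[F] ({x : Ω // a p x = 0} → F) :=
    { toFun := fun c x => c.1 x.1
      map_add' := fun _ _ => rfl
      map_smul' := fun _ _ => rfl }
  have hr : Function.Injective r := by
    rw [← LinearMap.ker_eq_bot, LinearMap.ker_eq_bot']
    intro c hc
    apply Subtype.ext
    funext x
    have h4 : a p (T p (-(a p x)) x) = 0 := by
      rw [h3 p hpS, neg_add_cancel]
    have h5 : c.1 (T p (-(a p x)) x) = 0 := congrFun hc ⟨_, h4⟩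
    have h6 : c.1 (T p (-(a p x)) x) = c.1 x := c.2 _ _
    rw [h6] at h5
    exact h5
  have h4 : Module.finrank F (InvT F T p) ≤ Fintype.card {x : Ω // a p x = 0} := by
    have := LinearMap.finrank_le_finrank_of_injective hr
    rwa [Module.finrank_fintype_fun_eq_card] at this
  refine h4.trans ?_
  rw [Nat.le_div_iff_mul_le hp.pos]
  have h5 : Function.Injective (fun y : {x : Ω // a p x = 0} × ZMod p => T p y.2 y.1.1) := by
    rintro ⟨⟨x, hx⟩, b⟩ ⟨⟨x', hx'⟩, b'⟩ h
    simp only at h
    have h6 := congrArg (a p) h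
    rw [h3 p hpS, h3 p hpS, hx, hx', add_zero, add_zero] at h6
    subst h6
    have h7 := congrArg (T p (-b)) h
    rw [← h2 p hpS, ← h2 p hpS, neg_add_cancel, h1 p hpS, h1 p hpS] at h7
    subst h7
    rfl
  have h6 := Fintype.card_le_of_injective _ h5
  rwa [Fintype.card_prod, ZMod.card] at h6

theorem t_dimt : S_DIMT := by
  intro F _ Ω _ S T a hfr hp
  exact (finrank_iSup S _).trans
    (Finset.sum_le_sum fun p hpS => finrank_inv hfr hpS (hp p hpS))

end Pool.Agent.H144.TW.PDIMT
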