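import Pool.Agent.H144.TW.Stm

/-! Part EXPO of the project TS, written by helper354. -/

set_option autoImplicit false

/-!
# TS EXPO: the exponents
-/

namespace Pool.Agent.H144.TW.PEXPO

open Pool.Agent.H144.TW

/-- `q ^ (N + φ(N) j) ≡ q ^ N` modulo `N` -/
theorem pow_add_totient (q N j : ℕ) (hq : 1 ≤ q) (hN : 0 < N) :
    q ^ (N + N.totient * j) ≡ q ^ N [MOD N] := by
  have h1 : q ^ N ≤ q ^ (N + N.totient * j) := Nat.pow_le_pow_right hq (by omega)
  apply Nat.ModEq.symm
  rw [Nat.modEq_iff_dvd' h1, Nat.dvd_iff_prime_pow_dvd_dvd]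
  intro r k hr hk
  have h2 : q ^ (N + N.totient * j) - q ^ N = q ^ N * (q ^ (N.totient * j) - 1) := by
    rw [pow_add, Nat.mul_sub, mul_one]
  rw [h2]
  by_cases hrq : r ∣ q
  · have hkN : k ≤ N := by
      have h3 : r ^ k ≤ N := Nat.le_of_dvd hN hk
      have h4 : k < r ^ k := Nat.lt_pow_self hr.one_lt
      omega
    exact Dvd.dvd.mul_right ((pow_dvd_pow r hkN).trans (pow_dvd_pow_of_dvd hrq N)) _
  · have hco : Nat.Coprime q (r ^ k) := Nat.Coprime.pow_right k
      ((Nat.Prime.coprime_iff_not_dvd hr).2 hrq).symm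
    have h3 : q ^ (r ^ k).totient ≡ 1 [MOD r ^ k] := Nat.ModEq.pow_totient hco
    obtain ⟨l, hl⟩ := Nat.totient_dvd_of_dvd hk
    have h4 : q ^ (N.totient * j) ≡ 1 [MOD r ^ k] := by
      rw [hl, mul_assoc, pow_mul]
      have := h3.pow (l * j)
      rwa [one_pow] at this
    have h5 : 1 ≤ q ^ (N.totient * j) := Nat.one_le_pow _ _ hq
    have h6 := (Nat.modEq_iff_dvd' h5).1 h4.symm
    exact Dvd.dvd.mul_left h6 _

theorem t_expo : S_EXPO := by
  intro q n p hq hqp hn hG
  obtain ⟨hp, hpn, -, hco⟩ := hG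
  set N := n / p with hN
  have hNpos : 0 < N := Nat.div_pos (Nat.le_of_dvd hn hpn) hp.pos
  have hodd : Odd p := hp.odd_of_ne_two (by omega)
  obtain ⟨h, hh⟩ := hodd
  have hh2 : (p - 1) / 2 = h := by omega
  rw [hh2] at hco
  have h1 : 1 < h := by
    by_contra hcon
    have : h = 1 := by omega
    omega
  obtain ⟨w, -, hw⟩ := Nat.exists_mul_mod_eq_one_of_coprime hco.symm h1
  refine ⟨N + N.totient * (2 * w), N, ?_, pow_add_totient q N (2 * w) (by omega) hNpos⟩
  have h2 : N.totient * w = h * (N.totient * w / h) + 1 := by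
    have := Nat.div_add_mod (N.totient * w) h
    rw [hw] at this
    exact this.symm
  set l := N.totient * w / h with hl
  have h3 : N + N.totient * (2 * w) = (N + 2) + (p - 1) * l := by
    have e : N.totient * (2 * w) = 2 * (N.totient * w) := by ring
    have e2 : p - 1 = 2 * h := by omega
    rw [e, h2, e2]
    ring
  have hcop : Nat.Coprime q p := by
    apply Nat.Coprime.symm
    rw [Nat.Prime.coprime_iff_not_dvd hp]
    intro hd
    have := Nat.le_of_dvd (by omega) hd
    omega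
  have h4 : q ^ (p - 1) ≡ 1 [MOD p] := by
    have := Nat.ModEq.pow_totient hcop
    rwa [Nat.totient_prime hp] at this
  rw [h3, pow_add, pow_mul]
  have h5 := (h4.pow l).mul_left (q ^ (N + 2))
  rwa [one_pow, mul_one] at h5

end Pool.Agent.H144.TW.PEXPO
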