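import Pool.Agent.H144.TW.Stm

/-! Part MUL of the project TS, written by helper348. -/

/-! MUL: minimal two-sided ideals are closed under power automorphisms (task of helper144). -/

set_option autoImplicit false

namespace Pool.Agent.H144.TW.PMUL

open Pool.Agent.H144.TW (TwoSided)

variable {F G : Type} [Field F] [Group G] [Fintype G]

/-- the function of an element of the group algebra -/
def fn (z : MonoidAlgebra F G) : G → F := fun x => z.coeff x

/-- the element of a function -/
noncomputable def el (r : G → F) : MonoidAlgebra F G :=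
  MonoidAlgebra.ofCoeff (Finsupp.equivFunOnFinite.symm r)

theorem fn_el (r : G → F) : fn (el r) = r := by
  funext x
  simp [fn, el]

theorem el_fn (z : MonoidAlgebra F G) : el (fn z) = z := by
  apply MonoidAlgebra.coeff_injective
  ext x
  simp [fn, el]

theorem fn_add (z w : MonoidAlgebra F G) : fn (z + w) = fn z + fn w := by
  funext x
  simp [fn]

theorem fn_smul (c : F) (z : MonoidAlgebra F G) : fn (c • z) = c • fn z := by
  funext x
  simp [fn]

/-- the orthogonal space -/
def perp (X : Submodule F (G → F)) : Submodule F (G → F) where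
  carrier := {r | ∀ b ∈ X, ∑ x, r x * b x = 0}
  add_mem' := by
    intro r s hr hs b hb
    simp only [Pi.add_apply, add_mul, Finset.sum_add_distrib]
    rw [hr b hb, hs b hb, add_zero]
  zero_mem' := by
    intro b _
    simp
  smul_mem' := by
    intro c r hr b hb
    simp only [Pi.smul_apply, smul_eq_mul, mul_assoc, ← Finset.mul_sum]
    rw [hr b hb, mul_zero]

theorem mem_perp (X : Submodule F (G → F)) (r : G → F) :
    r ∈ perp X ↔ ∀ b ∈ X, ∑ x, r x * b x = 0 := Iff.rfl

theorem perp_anti {X Y : Submodule F (G → F)} (h : X ≤ Y) : perp Y ≤ perp X :=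
  fun _ hr b hb => hr b (h hb)

theorem le_perp_perp (X : Submodule F (G → F)) : X ≤ perp (perp X) := by
  intro r hr b hb
  rw [← hb r hr]
  exact Finset.sum_congr rfl fun x _ => mul_comm _ _

theorem perp_perp_le (X : Submodule F (G → F)) : perp (perp X) ≤ X := by
  classical
  intro v hv
  by_contra hvX
  obtain ⟨φ, h1, h2⟩ := Submodule.exists_le_ker_of_notMem hvX
  have hrep : ∀ w : G → F, φ w = ∑ x, φ (Pi.single x 1) * w x := by
    intro w
    conv_lhs => rw [← Finset.univ_sum_single w]
    rw [map_sum]
    refine Finset.sum_congr rfl fun x _ => ?_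
    have : (Pi.single x (w x) : G → F) = w x • Pi.single x (1 : F) := by
      rw [← Pi.single_smul, smul_eq_mul, mul_one]
    rw [this, map_smul, smul_eq_mul, mul_comm]
  have hr : (fun x => φ (Pi.single x 1)) ∈ perp X := by
    intro b hb
    have := h2 hb
    rw [LinearMap.mem_ker, hrep] at this
    exact this
  have h3 := hv _ hr
  apply h1
  rw [hrep, ← h3]
  exact Finset.sum_congr rfl fun x _ => mul_comm _ _

theorem perp_twoSided {X : Submodule F (G → F)} (hX : TwoSided X) : TwoSided (perp X) := by
  constructor
  · intro g r hr b hb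
    have h1 := hr _ (hX.1 g⁻¹ b hb)
    rw [← h1]
    refine Fintype.sum_equiv (Equiv.mulLeft g) _ _ fun x => ?_
    simp
  · intro g r hr b hb
    have h1 := hr _ (hX.2 g⁻¹ b hb)
    rw [← h1]
    refine Fintype.sum_equiv (Equiv.mulRight g) _ _ fun x => ?_
    simp

theorem left_closed {X : Submodule F (G → F)} (hX : TwoSided X) (a z : MonoidAlgebra F G)
    (hz : fn z ∈ X) : fn (a * z) ∈ X := by
  refine MonoidAlgebra.induction_on (motive := fun a => fn (a * z) ∈ X) a ?_ ?_ ?_
  · intro m
    have : fn (MonoidAlgebra.of F G m * z) = fun x => fn z (m⁻¹ * x) := by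
      funext x
      simp [fn]
    rw [this]
    exact hX.1 _ _ hz
  · intro x y hx hy
    rw [add_mul, fn_add]
    exact X.add_mem hx hy
  · intro c x hx
    rw [smul_mul_assoc, fn_smul]
    exact X.smul_mem c hx

theorem right_closed {X : Submodule F (G → F)} (hX : TwoSided X) (a z : MonoidAlgebra F G)
    (hz : fn z ∈ X) : fn (z * a) ∈ X := by
  refine MonoidAlgebra.induction_on (motive := fun a => fn (z * a) ∈ X) a ?_ ?_ ?_
  · intro m
    have : fn (z * MonoidAlgebra.of F G m) = fun x => fn z (x * m⁻¹) := by
      funext x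
      simp [fn]
    rw [this]
    exact hX.2 _ _ hz
  · intro x y hx hy
    rw [mul_add, fn_add]
    exact X.add_mem hx hy
  · intro c x hx
    rw [mul_smul_comm, fn_smul]
    exact X.smul_mem c hx

/-- the ideal of a two-sided space -/
def idl (X : Submodule F (G → F)) (hX : TwoSided X) : Ideal (MonoidAlgebra F G) where
  carrier := {z | fn z ∈ X}
  add_mem' := by
    intro a b ha hb
    change fn (a + b) ∈ X
    rw [fn_add]
    exact X.add_mem ha hb
  zero_mem' := by
    change fn 0 ∈ X
    have : fn (0 : MonoidAlgebra F G) = 0 := by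
      funext x
      simp [fn]
    rw [this]
    exact X.zero_mem
  smul_mem' := fun a z hz => left_closed hX a z hz

theorem mem_idl (X : Submodule F (G → F)) (hX : TwoSided X) (z : MonoidAlgebra F G) :
    z ∈ idl X hX ↔ fn z ∈ X := Iff.rfl

/-- the space of an ideal -/
def spc (J : Ideal (MonoidAlgebra F G)) : Submodule F (G → F) where
  carrier := {r | el r ∈ J}
  add_mem' := by
    intro a b ha hb
    change el (a + b) ∈ J
    have : el (a + b) = el a + el b := by
      apply MonoidAlgebra.coeff_injective
      ext x
      simp [el]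
    rw [this]
    exact J.add_mem ha hb
  zero_mem' := by
    change el 0 ∈ J
    have : el (0 : G → F) = 0 := by
      apply MonoidAlgebra.coeff_injective
      ext x
      simp [el]
    rw [this]
    exact J.zero_mem
  smul_mem' := by
    intro c a ha
    change el (c • a) ∈ J
    have : el (c • a) = MonoidAlgebra.single 1 c * el a := by
      apply MonoidAlgebra.coeff_injective
      ext x
      simp [el]
    rw [this]
    exact J.mul_mem_left _ ha

theorem mem_spc (J : Ideal (MonoidAlgebra F G)) (r : G → F) : r ∈ spc J ↔ el r ∈ J := Iff.rfl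

theorem spc_twoSided (J : Ideal (MonoidAlgebra F G)) (hJ : J.IsTwoSided) : TwoSided (spc J) := by
  constructor
  · intro g r hr
    change el (fun x => r (g * x)) ∈ J
    have : el (fun x => r (g * x)) = MonoidAlgebra.single g⁻¹ 1 * el r := by
      apply MonoidAlgebra.coeff_injective
      ext x
      simp [el]
    rw [this]
    exact J.mul_mem_left _ hr
  · intro g r hr
    change el (fun x => r (x * g)) ∈ J
    have : el (fun x => r (x * g)) = el r * MonoidAlgebra.single g⁻¹ 1 := by
      apply MonoidAlgebra.coeff_injective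
      ext x
      simp [el]
    rw [this]
    exact J.mul_mem_right _ hr

theorem t_mul (h : Pool.Agent.H144.TW.S_FUN) : Pool.Agent.H144.TW.S_MUL := by
  intro F _ _ G _ _ D hD hD0
  classical
  obtain ⟨B, ⟨hB1, hB2, hB3⟩, hBmin⟩ := WellFounded.has_min
    (wellFounded_lt : WellFounded ((· < ·) : Submodule F (G → F) → Submodule F (G → F) → Prop))
    {X | TwoSided X ∧ X ≠ ⊥ ∧ X ≤ D} ⟨D, hD, hD0, le_rfl⟩
  refine ⟨B, hB3, hB2, hB1, ?_⟩
  intro μ hμ c hc
  set I := idl (perp B) (perp_twoSided hB1) with hI
  have hI2 : I.IsTwoSided := ⟨fun b ha => right_closed (perp_twoSided hB1) b _ ha⟩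
  have hItop : I ≠ ⊤ := by
    intro htop
    apply hB2
    rw [Submodule.eq_bot_iff]
    intro b hb
    funext x0
    have h1 : el (Pi.single x0 (1 : F)) ∈ I := by rw [htop]; trivial
    have h2 : fn (el (Pi.single x0 (1 : F))) ∈ perp B := h1
    rw [fn_el] at h2
    have h3 := h2 b hb
    simpa [Pi.single_apply] using h3
  have hmax : ∀ J : Ideal (MonoidAlgebra F G), J.IsTwoSided → I ≤ J → J = I ∨ J = ⊤ := by
    intro J hJ hIJ
    have hle : perp B ≤ spc J := by
      intro r hr
      apply hIJ
      change fn (el r) ∈ perp B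
      rw [fn_el]
      exact hr
    have hle2 : perp (spc J) ≤ B := (perp_anti hle).trans (perp_perp_le B)
    have hts : TwoSided (perp (spc J)) := perp_twoSided (spc_twoSided J hJ)
    by_cases h0 : perp (spc J) = ⊥
    · right
      rw [Ideal.eq_top_iff_one]
      have h1 : fn (1 : MonoidAlgebra F G) ∈ perp (perp (spc J)) := by
        rw [h0]
        intro b hb
        rw [Submodule.mem_bot] at hb
        rw [hb]
        simp
      have h2 := perp_perp_le _ h1
      have h3 : el (fn (1 : MonoidAlgebra F G)) ∈ J := h2
      rwa [el_fn] at h3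
    · left
      have hnlt := hBmin (perp (spc J)) ⟨hts, h0, hle2.trans hB3⟩
      have heq : perp (spc J) = B := by
        by_contra hne
        exact hnlt (lt_of_le_of_ne hle2 hne)
      refine le_antisymm ?_ hIJ
      intro z hz
      change fn z ∈ perp B
      rw [← heq]
      apply le_perp_perp
      change el (fn z) ∈ J
      rw [el_fn]
      exact hz
  have hfun := h F G I hI2 hItop hmax μ hμ
  apply perp_perp_le B
  intro r hr
  have h1 : el r ∈ I := by
    change fn (el r) ∈ perp B
    rw [fn_el]
    exact hr
  have h2 : fn (MonoidAlgebra.domCongr F F μ (el r)) ∈ perp B := hfun _ h1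
  have h3 := h2 c hc
  rw [← h3]
  refine Fintype.sum_equiv μ.toEquiv _ _ fun x => ?_
  have h4 : fn (MonoidAlgebra.domCongr F F μ (el r)) (μ x) = r x := by
    simp [fn, el]
  change c (μ x) * r x = fn (MonoidAlgebra.domCongr F F μ (el r)) (μ x) * c (μ x)
  rw [h4, mul_comm]

end Pool.Agent.H144.TW.PMUL
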