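import Pool.Agent.H144.TW.Stm

/-! Part TRC of the project TS, written by helper348. -/

/-! TRC: the trace functional of a finite simple algebra (task of helper144). -/

set_option autoImplicit false

namespace Pool.Agent.H144.TW.PTRC

/-- the action of matrices over `D` on the `F`-space `D ^ n` -/
def rho (F D : Type) [Field F] [Field D] [Algebra F D] (n : ℕ) (M : Matrix (Fin n) (Fin n) D) :
    Module.End F (Fin n → D) where
  toFun := M.mulVec
  map_add' := fun v w => Matrix.mulVec_add M v w
  map_smul' := fun c v => by
    ext i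
    simp only [Matrix.mulVec, dotProduct, Pi.smul_apply, RingHom.id_apply, Finset.smul_sum,
      mul_smul_comm]

theorem rho_add (F D : Type) [Field F] [Field D] [Algebra F D] (n : ℕ)
    (M N : Matrix (Fin n) (Fin n) D) : rho F D n (M + N) = rho F D n M + rho F D n N :=
  LinearMap.ext fun v => Matrix.add_mulVec M N v

theorem rho_mul (F D : Type) [Field F] [Field D] [Algebra F D] (n : ℕ)
    (M N : Matrix (Fin n) (Fin n) D) : rho F D n (M * N) = rho F D n M * rho F D n N :=
  LinearMap.ext fun v => (Matrix.mulVec_mulVec v M N).symm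

theorem rho_one (F D : Type) [Field F] [Field D] [Algebra F D] (n : ℕ) :
    rho F D n 1 = 1 :=
  LinearMap.ext fun v => Matrix.one_mulVec v

theorem rho_pow (F D : Type) [Field F] [Field D] [Algebra F D] (n : ℕ)
    (M : Matrix (Fin n) (Fin n) D) (k : ℕ) : rho F D n (M ^ k) = rho F D n M ^ k := by
  induction k with
  | zero => rw [pow_zero, pow_zero, rho_one]
  | succ k ih => rw [pow_succ, rho_mul, ih, pow_succ]

theorem rho_smul (F D : Type) [Field F] [Field D] [Algebra F D] (n : ℕ) (c : F)
    (M : Matrix (Fin n) (Fin n) D) : rho F D n (c • M) = c • rho F D n M := by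
  refine LinearMap.ext fun v => ?_
  ext i
  change ((c • M).mulVec v) i = (c • (M.mulVec v)) i
  simp only [Matrix.mulVec, dotProduct, Pi.smul_apply, Matrix.smul_apply, Finset.smul_sum,
      smul_mul_assoc]

theorem trc_matrix (F D : Type) [Field F] [Fintype F] [Field D] [Algebra F D] [Finite D] (n : ℕ)
    [NeZero n] : ∃ lam : Matrix (Fin n) (Fin n) D →ₗ[F] F, lam ≠ 0 ∧
    (∀ x y, lam (x * y) = lam (y * x)) ∧ ∀ x, lam (x ^ Fintype.card F) = lam x := by
  classical
  have hfin : Module.Finite F D := inferInstance
  let lam : Matrix (Fin n) (Fin n) D →ₗ[F] F :=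
    { toFun := fun M => LinearMap.trace F (Fin n → D) (rho F D n M)
      map_add' := fun M N => by rw [rho_add, map_add]
      map_smul' := fun c M => by rw [rho_smul, map_smul]; rfl }
  have hlam : ∀ M, lam M = LinearMap.trace F (Fin n → D) (rho F D n M) := fun M => rfl
  refine ⟨lam, ?_, ?_, ?_⟩
  · intro h0
    have h1 : Algebra.trace F D ≠ 0 := Algebra.trace_ne_zero F D
    apply h1
    ext d
    rw [LinearMap.zero_apply]
    have h2 := hlam (Matrix.single 0 0 d)
    rw [h0, LinearMap.zero_apply] at h2
    rw [h2, Algebra.trace_apply]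
    set g : D →ₗ[F] (Fin n → D) :=
      (LinearMap.single F (fun _ : Fin n => D) 0).comp (LinearMap.mulLeft F d) with hg
    set f : (Fin n → D) →ₗ[F] D := LinearMap.proj 0 with hf
    have h3 : rho F D n (Matrix.single 0 0 d) = g ∘ₗ f := by
      refine LinearMap.ext fun v => ?_
      ext i
      change ((Matrix.single 0 0 d).mulVec v) i = _
      rw [Matrix.single_mulVec]
      simp only [hg, hf, LinearMap.comp_apply, LinearMap.proj_apply, LinearMap.mulLeft_apply,
        LinearMap.single_apply]
      rcases eq_or_ne i 0 with h | h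
      · rw [h]; simp
      · simp [h]
    have h4 : Algebra.lmul F D d = f ∘ₗ g := by
      refine LinearMap.ext fun v => ?_
      simp [hg, hf]
    rw [h3, h4]
    exact (LinearMap.trace_comp_comm' f g).symm
  · intro x y
    rw [hlam, hlam, rho_mul, rho_mul, LinearMap.trace_mul_comm]
  · intro x
    rw [hlam, hlam, rho_pow]
    let b := Module.finBasis F (Fin n → D)
    rw [LinearMap.trace_eq_matrix_trace F b, LinearMap.trace_eq_matrix_trace F b]
    have h5 : LinearMap.toMatrix b b (rho F D n x ^ Fintype.card F) =
        (LinearMap.toMatrix b b (rho F D n x)) ^ Fintype.card F := by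
      change LinearMap.toMatrixAlgEquiv b _ = (LinearMap.toMatrixAlgEquiv b _) ^ _
      rw [map_pow]
    rw [h5, FiniteField.trace_pow_card, FiniteField.pow_card]

theorem t_trc : Pool.Agent.H144.TW.S_TRC := by
  intro F _ _ R _ _ _ _
  have hfin : Module.Finite F R := inferInstance
  obtain ⟨n, hn, D, hD, hA, hF, ⟨e⟩⟩ :=
    IsSimpleRing.exists_algEquiv_matrix_divisionRing_finite F R
  have hDf : Finite D := Module.finite_of_finite F
  let _ : Field D := littleWedderburn D
  obtain ⟨lam, h1, h2, h3⟩ := trc_matrix F D n
  refine ⟨lam.comp e.toLinearMap, ?_, ?_, ?_⟩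
  · intro h
    apply h1
    ext x
    have := LinearMap.congr_fun h (e.symm x)
    simpa using this
  · intro x y
    simp only [LinearMap.comp_apply, AlgEquiv.toLinearMap_apply, map_mul]
    exact h2 _ _
  · intro x
    simp only [LinearMap.comp_apply, AlgEquiv.toLinearMap_apply, map_pow]
    exact h3 _

end Pool.Agent.H144.TW.PTRC
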