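import Pool.Agent.H144.TW.Alg
import Pool.Agent.H144.TW.Final
import Pool.Agent.H144.TW.LOWL
import Pool.Agent.H144.TW.P_TRC
import Pool.Agent.H144.TW.P_FUN
import Pool.Agent.H144.TW.P_MUL
import Pool.Agent.H144.TW.P_GRP
import Pool.Agent.H144.TW.P_EXPO
import Pool.Agent.H144.TW.P_AUT
import Pool.Agent.H144.TW.P_FRM
import Pool.Agent.H144.TW.P_PRJ
import Pool.Agent.H144.TW.P_DIMT
import Pool.Agent.H144.TW.P_TEN
import Pool.Agent.H144.TW.P_TENF
import Pool.Agent.H144.TW.P_COLR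
import Pool.Agent.H144.TW.P_DIV
import Pool.Agent.H144.TW.P_NTG
import Pool.Agent.H144.CY.One
import Pool.Agent.H144.CY.P_IDEM
import Pool.Agent.H144.CY.P_AVG
import Pool.Agent.H144.CY.P_LEG
import Pool.Agent.H144.CY.P_MER1
import Pool.Agent.H144.CY.P_DYA1
import Pool.Agent.H144.CY.P_BTS
import Pool.Agent.H144.CY.P_TUR
import Pool.Agent.H144.CY.P_COL
import Pool.Agent.H144.CY.Good2

set_option autoImplicit false

/-! # Two-sided group codes of almost all lengths: the parts put together -/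

namespace Pool.Agent.H144.TW

open Pool.Agent.H144.CY (S_ONE S_DYA1 S_BTS)

theorem all_one : S_ONE := Pool.Agent.H144.CY.t_one Pool.Agent.H144.CY.IDEM.t_idem
  Pool.Agent.H144.CY.AVG.t_avg

theorem all_dya : S_DYA1 := Pool.Agent.H144.CY.t_dya1 Pool.Agent.H144.CY.LEG.t_leg
  Pool.Agent.H144.CY.MER1.t_mer

theorem all_bts : S_BTS := Pool.Agent.H144.CY.BTS.t_bts

theorem all_alg : S_ALG :=
  t_alg (PMUL.t_mul (PFUN.t_fun PTRC.t_trc)) (PFRM.t_frm PGRP.t_grp PEXPO.t_expo PAUT.t_aut)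
    PPRJ.t_prj1 PPRJ.t_prj2 PDIMT.t_dimt (PTENF.t_tenf (PTEN.t_ten all_one))

theorem all_nt : S_NTG :=
  PNTG.t_ntg (t_lowl all_dya) (PCOLR.t_colr all_bts) PDIV.t_div Pool.Agent.H144.CY.TUR.t_tur
    (Pool.Agent.H144.CY.COL.t_col all_bts) Pool.Agent.H144.CY.t_good2

end Pool.Agent.H144.TW
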