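import Pool.Agent.H144.CY.Stm2

set_option autoImplicit false

/-!
# Two-sided group codes of almost all lengths: definitions and statements of the parts

Project TS (helper144 with helper633; page MP_0430e4_lc).

Main theorem.  For every `η ∈ (0, 1)` there is a set of natural numbers of density one such that
for every finite field `F` and all large `n` in the set, for EVERY group `G` of order `n` (the
characteristic of `F` may divide `n`), every two-sided ideal `C` of `F[G]` (a subspace of `F ^ G`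
invariant under the left and the right translations) of dimension at least
`n * exp (-(log n) ^ (1 - η))` contains a nonzero word of weight at most
`n * exp (-c * log log n / log log log n)`.

Modules of helper633 (`Pool.Agent.H144.CY`) are used for the number theory and for the splitting of
one tensor factor (`S_ONE`).

`S_X : Prop` is the statement of the part `X`; its paper proof is in the docstring.
-/

namespace Pool.Agent.H144.TW

open Finset

/-! ## Definitions -/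

/-- Two-sided ideals of `F[G]`, as spaces of functions. -/
def TwoSided {F G : Type} [Field F] [Group G] (C : Submodule F (G → F)) : Prop :=
  (∀ g : G, ∀ c ∈ C, (fun x => c (g * x)) ∈ C) ∧ (∀ g : G, ∀ c ∈ C, (fun x => c (x * g)) ∈ C)

/-- `p` is a good prime factor of `n` for the groups of order `n`.
(`Good n p`: `p` is prime, divides `n` exactly once and `(p - 1) / 2` is prime to `φ(n / p)`.) -/
def GoodN (n p : ℕ) : Prop :=
  Pool.Agent.H144.CY.Good n p ∧ ((p - 1) / 2).Coprime (n / p) ∧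
    ∀ d : ℕ, d ∣ n → d ≡ 1 [MOD p] → d = 1

/-- A frame on a finite set `Ω` for the primes `p ∈ S`: commuting free actions `T p` of `ℤ / p` with
equivariant coordinates `a p : Ω → ℤ / p`, the coordinate `a p'` being invariant under `T p` for
`p ≠ p'`. -/
def Frame {Ω : Type} (S : Finset ℕ) (T : (p : ℕ) → ZMod p → Ω → Ω) (a : (p : ℕ) → Ω → ZMod p) :
    Prop :=
  (∀ p ∈ S, ∀ x, T p 0 x = x) ∧
  (∀ p ∈ S, ∀ b c x, T p (b + c) x = T p b (T p c x)) ∧
  (∀ p ∈ S, ∀ b x, a p (T p b x) = b + a p x) ∧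
  (∀ p ∈ S, ∀ p' ∈ S, p ≠ p' → ∀ b x, a p' (T p b x) = a p' x) ∧
  (∀ p ∈ S, ∀ p' ∈ S, p ≠ p' → ∀ b b' x, T p b (T p' b' x) = T p' b' (T p b x))

/-- Functions invariant under `T p`. -/
def InvT (F : Type) {Ω : Type} [Field F] (T : (p : ℕ) → ZMod p → Ω → Ω) (p : ℕ) :
    Submodule F (Ω → F) where
  carrier := {c | ∀ b x, c (T p b x) = c x}
  add_mem' := by
    intro c d hc hd b x
    simp only [Pi.add_apply]
    rw [hc b x, hd b x]
  zero_mem' := by
    intro b x
    rfl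
  smul_mem' := by
    intro r c hc b x
    simp only [Pi.smul_apply]
    rw [hc b x]

/-- Functions all of whose averages over the orbits of `T p`, `p ∈ S`, vanish. -/
def ZeroT (F : Type) {Ω : Type} [Field F] (S : Finset ℕ) (T : (p : ℕ) → ZMod p → Ω → Ω) :
    Submodule F (Ω → F) where
  carrier := {c | ∀ p ∈ S, ∀ x, ∑ b ∈ range p, c (T p (b : ZMod p) x) = 0}
  add_mem' := by
    intro c d hc hd p hp x
    simp only [Pi.add_apply, sum_add_distrib]
    rw [hc p hp x, hd p hp x, add_zero]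
  zero_mem' := by
    intro p _ x
    simp
  smul_mem' := by
    intro r c hc p hp x
    simp only [Pi.smul_apply, smul_eq_mul, ← mul_sum]
    rw [hc p hp x, mul_zero]

/-- Codes closed under the translations `T p b` and under the multipliers
`x ↦ T p ((Q - 1) a_p(x)) x` (which multiply the coordinate `a p` by `Q`). -/
def FrameCode {F Ω : Type} [Field F] (Q : ℕ) (S : Finset ℕ) (T : (p : ℕ) → ZMod p → Ω → Ω)
    (a : (p : ℕ) → Ω → ZMod p) (C : Submodule F (Ω → F)) : Prop :=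
  (∀ p ∈ S, ∀ b, ∀ c ∈ C, (fun x => c (T p b x)) ∈ C) ∧
  (∀ p ∈ S, ∀ c ∈ C, (fun x => c (T p (((Q : ZMod p) - 1) * a p x) x)) ∈ C)

/-! ## Algebra: minimal two-sided ideals are closed under power automorphisms -/

/-- TRC. A finite simple algebra `R` over the finite field `F` with `q` elements has a nonzero
`F`-linear functional `lam` with `lam (x y) = lam (y x)` and `lam (x ^ q) = lam x`.
Proof. By Wedderburn (`IsSimpleRing.exists_algEquiv_matrix_divisionRing` or a variant) `R` is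
isomorphic to `Matrix (Fin n) (Fin n) D` over `F`, `n ≠ 0`, `D` a finite division algebra over `F`,
a field by the little Wedderburn theorem (`littleWedderburn`). Let `ρ` be the representation of
`R` on the `F`-space `Fin n → D` (`Matrix.mulVec`), `lam x = LinearMap.trace F _ (ρ x)`
(a matrix over `F` in a basis). `lam (x y) = lam (y x)` (`LinearMap.trace_mul_comm`).
`lam (x ^ q) = (lam x) ^ q = lam x`: `FiniteField.trace_pow_card` (for matrices over `F`) and
`FiniteField.pow_card`. `lam ≠ 0`: take for `x` the matrix with the only nonzero entry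
`d ∈ D` at the place `(0, 0)`; its trace on `D ^ n` is `Algebra.trace F D d` (`trace (f ∘ g) =
trace (g ∘ f)` for `g : D ^ n → D`, `v ↦ d v_0` and `f : D → D ^ n`), and some `d` has
`Algebra.trace F D d ≠ 0` (`Algebra.trace_ne_zero`; `D / F` is separable, `F` being perfect). -/
def S_TRC : Prop := ∀ (F : Type) [Field F] [Fintype F] (R : Type) [Ring R] [Algebra F R]
  [IsSimpleRing R] [Finite R], ∃ lam : R →ₗ[F] F, lam ≠ 0 ∧
    (∀ x y : R, lam (x * y) = lam (y * x)) ∧ ∀ x : R, lam (x ^ Fintype.card F) = lam x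

/-- FUN (from TRC). Maximal two-sided ideals of `F[G]` are stable under the automorphisms `μ` of `G`
such that for every `g` some powers `g ^ (q ^ s)` and `(μ g) ^ (q ^ t)` are conjugate.
Proof. `R = MonoidAlgebra F G`. `R ⧸ I` is a finite simple ring (`isSimpleRing_iff_isTwoSided_imp`,
`Ideal.comap` / `Ideal.map` along the quotient map) and an `F`-algebra; let `lam : R → F` be the
functional of TRC composed with the quotient map: it is nonzero, zero on `I`, `lam (x y) = lam (y x)`,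
`lam (x ^ q) = lam x`. Hence `lam (g ^ (q ^ s)) = lam g` for all `s` and `g : G`
(`g` stands for `MonoidAlgebra.single g 1`), and `lam (h g h⁻¹) = lam g`. So
`lam (μ g) = lam ((μ g) ^ (q ^ t)) = lam (g ^ (q ^ s)) = lam g`, i.e. `lam ∘ μ = lam` where `μ` also
denotes the induced ring automorphism `MonoidAlgebra.domCongr F F μ` of `R`. The image `μ I`
(`Ideal.map` or `Ideal.comap` of the inverse) is a two-sided ideal. If it is not contained in `I`, then
`I ⊔ μ I = ⊤` by maximality, but `lam` vanishes on `I` and on `μ I`, so `lam = 0`: contradiction. -/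
def S_FUN : Prop := ∀ (F : Type) [Field F] [Fintype F] (G : Type) [Group G] [Fintype G]
  (I : Ideal (MonoidAlgebra F G)), I.IsTwoSided → I ≠ ⊤ →
  (∀ J : Ideal (MonoidAlgebra F G), J.IsTwoSided → I ≤ J → J = I ∨ J = ⊤) →
  ∀ μ : G ≃* G,
    (∀ g : G, ∃ s t : ℕ, IsConj (g ^ (Fintype.card F ^ s)) (μ g ^ (Fintype.card F ^ t))) →
    ∀ x ∈ I, MonoidAlgebra.domCongr F F μ x ∈ I

/-- MUL (from FUN). Every nonzero two-sided ideal `D` contains a nonzero two-sided ideal `B` which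
is closed under all automorphisms `μ` as in FUN.
Proof. Let `B ≤ D` be a nonzero `TwoSided` subspace of least dimension. For a subspace `X` of
`F ^ G` put `X^⊥ = {r : ∑_x r x * b x = 0 for all b ∈ X}`; `X^⊥⊥ = X` (linear algebra, e.g.
`LinearMap.BilinForm.orthogonal_orthogonal` for the dot product, or `Submodule.dualCoannihilator`),
and `X^⊥` is `TwoSided` if `X` is (substitute `x ↦ g⁻¹ x`, `x ↦ x g⁻¹`). So `B^⊥` is maximal among the
`TwoSided` spaces different from `⊤` (if `B^⊥ ≤ Y ≠ ⊤` then `0 ≠ Y^⊥ ≤ B`, so `Y^⊥ = B`, `Y = B^⊥`).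
Identify the functions `r : G → F` with the elements `∑ r x • x` of `MonoidAlgebra F G`: the
`TwoSided` spaces are the two-sided ideals. So the ideal `I` of `B^⊥` is maximal among the proper
two-sided ideals, and FUN gives `μ I ⊆ I`. For `b ∈ B` and `r ∈ B^⊥`:
`∑_x r x * b (μ x) = ∑_y r (μ⁻¹ y) * b y = 0` as `r ∘ μ⁻¹` is the function of `μ r ∈ I`. So
`b ∘ μ ∈ B^⊥⊥ = B`. -/
def S_MUL : Prop := ∀ (F : Type) [Field F] [Fintype F] (G : Type) [Group G] [Fintype G]
  (D : Submodule F (G → F)), TwoSided D → D ≠ ⊥ →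
  ∃ B : Submodule F (G → F), B ≤ D ∧ B ≠ ⊥ ∧ TwoSided B ∧
    ∀ μ : G ≃* G,
      (∀ g : G, ∃ s t : ℕ, IsConj (g ^ (Fintype.card F ^ s)) (μ g ^ (Fintype.card F ^ t))) →
      ∀ c ∈ B, (fun x => c (μ x)) ∈ B

/-! ## Group theory -/

/-- GRP. Structure of the groups of order `n` at a good prime.
Proof. The number of the Sylow `p`-subgroups divides `n` and is `1` modulo `p`
(`card_sylow_modEq_one`, `Sylow.card_dvd_index` or via `Sylow` orbit-stabilizer), so it is `1` and
the Sylow `p`-subgroup `A` is normal (`Sylow.normal_of_subsingleton` or similar); `|A| = p` as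
`p ^ 2` does not divide `n`. Complement: `Subgroup.exists_right_complement'_of_coprime`
(Schur-Zassenhaus). Conjugation `G → MulAut A` : `A` is cyclic of order `p`, for every `h` there is
`k` with `h a h⁻¹ = a ^ k` for all `a ∈ A`, and `k ^ n = 1 = k ^ (p - 1)` modulo `p`. So the
order of `k` modulo `p` divides `gcd (p - 1, n) = gcd (p - 1, n / p)`, which divides `2`: an odd
prime or `4` dividing it would give a common prime factor of `(p - 1) / 2` and `n / p`. So
`k ^ 2 = 1` modulo `p`, `k = 1` or `k = -1`. -/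
def S_GRP : Prop := ∀ (G : Type) [Group G] [Fintype G] (p : ℕ), GoodN (Fintype.card G) p →
  ∃ A H : Subgroup G, A.Normal ∧ Nat.card A = p ∧ Subgroup.IsComplement' A H ∧
    ∀ h : G, (∀ a ∈ A, h * a * h⁻¹ = a) ∨ (∀ a ∈ A, h * a * h⁻¹ = a⁻¹)

/-- EXPO. The exponents.
Proof. `h = (p - 1) / 2` is prime to `φ(n / p)`. Write `n / p = k m` where `m` is prime to `q` and
every prime factor of `k` divides `q` (`Nat.exists_...`/ take `k = gcd (n/p, q^(n))`), so
`k ∣ q ^ n`. `φ(m)` divides `φ(n / p)`, so it is prime to `h`; let `w` with `φ(m) w ≡ 1 (mod h)`.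
Put `t = n`, `s = n + 2 φ(m) w`. Then `q ^ s ≡ q ^ t` modulo `k` (both are `0`) and modulo
`m` (`q ^ φ(m) ≡ 1`), hence modulo `n / p`. Modulo `p`: `q ^ (2 φ(m) w) = (q ^ 2) ^ (φ(m) w)
≡ q ^ 2` since `(q ^ 2) ^ h = q ^ (p - 1) ≡ 1`. (`q + 1 < p` so `p` is odd and does not divide
`q`.) -/
def S_EXPO : Prop := ∀ q n p : ℕ, 2 ≤ q → q + 1 < p → 0 < n → Pool.Agent.H144.CY.Good n p →
  ∃ s t : ℕ, q ^ s ≡ q ^ (t + 2) [MOD p] ∧ q ^ s ≡ q ^ t [MOD n / p]

/-- AUT. The multiplier automorphism.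
Proof. Every `g` is `a h` for unique `a ∈ A`, `h ∈ H`; `μ (a h) = a ^ (q ^ 2) h`. It is a
homomorphism: `a h a' h' = a (h a' h⁻¹) h h'`, `A` is commutative (prime order) and normal.
It is injective (`p` does not divide `q`), so bijective. Conjugacy: let `g = a h`. If `h` commutes
with the elements of `A`: `g ^ (q ^ s) = a ^ (q ^ s) h ^ (q ^ s)` and
`(μ g) ^ (q ^ t) = a ^ (q ^ (t + 2)) h ^ (q ^ t)` are equal for the exponents `s`, `t` of the
hypothesis (`|H| = |G| / p`). If `h a h⁻¹ = a⁻¹` on `A`: for `b ∈ A`, `b (a h) b⁻¹ = a b ^ 2 h`, and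
`b ^ 2 = a ^ (q ^ 2 - 1)` has a solution since `p` is odd; so `μ g` is conjugate to `g`
(`s = t = 0`). -/
def S_AUT : Prop := ∀ (G : Type) [Group G] [Fintype G] (q p : ℕ), p.Prime → p ≠ 2 → ¬ p ∣ q →
  (∃ s t : ℕ, q ^ s ≡ q ^ (t + 2) [MOD p] ∧ q ^ s ≡ q ^ t [MOD Fintype.card G / p]) →
  ∀ A H : Subgroup G, A.Normal → Nat.card A = p → Subgroup.IsComplement' A H →
  (∀ h : G, (∀ a ∈ A, h * a * h⁻¹ = a) ∨ (∀ a ∈ A, h * a * h⁻¹ = a⁻¹)) →
  ∃ μ : G ≃* G, (∀ a ∈ A, ∀ h ∈ H, μ (a * h) = a ^ (q ^ 2) * h) ∧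
    ∀ g : G, ∃ s t : ℕ, IsConj (g ^ (q ^ s)) (μ g ^ (q ^ t))

/-- FRM (from GRP, EXPO, AUT). The frame of a group of order `n` for the good primes `p ∈ S`.
Proof. For `p ∈ S` take `A_p`, `H_p` from GRP, a generator `z p` of `A_p`, `μ_p` from EXPO and AUT.
For `x = a h`, `a ∈ A_p`, `h ∈ H_p`, `a = z p ^ k`, put `a p x = k`. Then `T p b x = z p ^ b.val * x`
has the coordinates `a p (T p b x) = b + a p x`. For `p ≠ p'` in `S`: `A_p ≤ H_p'` (`|H_p'| = n / p'`
is divisible by `p`, so `H_p'` has an element of order `p`, which lies in the normal Sylow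
`p`-subgroup `A_p`; so `A_p ≤ H_p'`), and `A_p`, `A_p'` commute (normal with trivial intersection),
so `z_p ^ b a' h' = a' (z_p ^ b h')` has the same coordinate `a p'`; and the `T`'s commute.
`μ_p (a h) = a ^ (q ^ 2) h = a ^ (q ^ 2 - 1) (a h)`. -/
def S_FRM : Prop := ∀ (q : ℕ) (G : Type) [Group G] [Fintype G] (S : Finset ℕ), 2 ≤ q →
  (∀ p ∈ S, GoodN (Fintype.card G) p ∧ q + 1 < p) →
  ∃ (z : ℕ → G) (a : (p : ℕ) → G → ZMod p),
    Frame S (fun p b x => z p ^ b.val * x) a ∧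
    (∀ p ∈ S, orderOf (z p) = p ∧ (Subgroup.zpowers (z p)).Normal) ∧
    ∀ p ∈ S, ∃ μ : G ≃* G,
      (∀ x, μ x = z p ^ ((((q ^ 2 : ℕ) : ZMod p) - 1) * a p x).val * x) ∧
      ∀ g : G, ∃ s t : ℕ, IsConj (g ^ (q ^ s)) (μ g ^ (q ^ t))

/-! ## Frames -/

/-- PRJ1. A code closed under the translations which is not contained in the sum of the spaces of
invariant functions contains a nonzero word with vanishing averages.
Proof. Let `P_p c = p⁻¹ ∑_b c (T p b ·)` (`p ≠ 0` in `F`): `P_p c ∈ InvT p`, `P_p` maps `C` into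
`C`, `P_p c = c` for `c ∈ InvT p`, and `P_p`, `P_p'` commute. By induction on `S' ⊆ S`: for
`c ∈ C` there is `c' ∈ C` with `c - c' ∈ ⨆_{p ∈ S'} InvT p` and all averages of `c'` for
`p ∈ S'` vanish: pass from `c'` to `c' - P_p c'`. Apply this to a word `c` of `C` outside
`⨆_{p ∈ S} InvT p`; then `c' ≠ 0`. -/
def S_PRJ1 : Prop := ∀ (F : Type) [Field F] (Ω : Type) [Fintype Ω] (S : Finset ℕ)
  (T : (p : ℕ) → ZMod p → Ω → Ω) (a : (p : ℕ) → Ω → ZMod p), Frame S T a →
  (∀ p ∈ S, (p : F) ≠ 0) → ∀ C : Submodule F (Ω → F),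
  (∀ p ∈ S, ∀ b, ∀ c ∈ C, (fun x => c (T p b x)) ∈ C) → ¬ C ≤ ⨆ p ∈ S, InvT F T p →
  C ⊓ ZeroT F S T ≠ ⊥

/-- PRJ2. The sum of the spaces of invariant functions meets `ZeroT` trivially.
Proof. Induction on `S`: let `c ∈ ZeroT`, `c = d + e`, `d ∈ ⨆_{p ∈ S'} InvT p`, `e ∈ InvT p0`,
`S = insert p0 S'`. Apply `1 - P_{p0}` (see PRJ1): `c = c - P_{p0} c = (1 - P_{p0}) d`, which lies in
`⨆_{p ∈ S'} InvT p` since `P_{p0}` maps `InvT p` into `InvT p` (the actions commute). By the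
induction hypothesis `c = 0`. -/
def S_PRJ2 : Prop := ∀ (F : Type) [Field F] (Ω : Type) [Fintype Ω] (S : Finset ℕ)
  (T : (p : ℕ) → ZMod p → Ω → Ω) (a : (p : ℕ) → Ω → ZMod p), Frame S T a →
  (∀ p ∈ S, (p : F) ≠ 0) → ZeroT F S T ⊓ ⨆ p ∈ S, InvT F T p = ⊥

/-- DIMT. Dimension of the sum of the spaces of invariant functions.
Proof. `InvT p` embeds into the functions on `Ω_0 = {x | a p x = 0}` by restriction (every orbit
of `T p` meets `Ω_0`: `a p (T p (-(a p x)) x) = 0`), and `Ω ≃ ZMod p × Ω_0`, so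
`|Ω_0| = |Ω| / p`. The dimension of the sum is at most the sum of the dimensions. -/
def S_DIMT : Prop := ∀ (F : Type) [Field F] (Ω : Type) [Fintype Ω] (S : Finset ℕ)
  (T : (p : ℕ) → ZMod p → Ω → Ω) (a : (p : ℕ) → Ω → ZMod p), Frame S T a →
  (∀ p ∈ S, p.Prime) →
  Module.finrank F (⨆ p ∈ S, InvT F T p : Submodule F (Ω → F)) ≤ ∑ p ∈ S, Fintype.card Ω / p

/-- TEN (from ONE; compare `Pool/Agent/H633/CY/Alg1.lean`). Tensor splitting over the field `K`
with `Q` elements.
Proof. Induction on `S`. `S = ∅`: any nonzero word. `insert p S`: let `Ω_0 = {x | a p x = 0}`,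
`A = ZMod p`, `M = (Ω_0 → K)`; `Ω ≃ A × Ω_0` by `(b, x) ↦ T p b x` (inverse
`x ↦ (a p x, T p (-(a p x)) x)`). For `c : Ω → K` let `c̃ : A → M`, `c̃ b x = c (T p b x)`;
let `C1` be the space of all `c̃`, `c ∈ C`. It is closed under the translations of `A` and under
`b ↦ Q b` (as `c (T p (Q b) x) = c (T p ((Q - 1) a_p(y)) y)` for `y = T p b x`, `a_p(y) = b`).
The frame restricts to `Ω_0` for the primes of `S` (`T p'` preserves `Ω_0` as `a p` is
`T p'`-invariant). Let `V = ⨆_{p' ∈ S} InvT p'` on `Ω_0`. There is `c ∈ C` and `b, b'` with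
`c̃ b - c̃ b' ∉ V`: otherwise every `c ∈ C` is the sum of the function `T p b x ↦ c̃ 0 x` (which
is in `InvT p`) and of functions supported on one slice `b` given by an element of `V` (which
are in `⨆_{p' ∈ S} InvT p'` on `Ω`), against the hypothesis. Take a functional `l` on `M` vanishing
on `V` with `l (c̃ b) ≠ l (c̃ b')` (`Submodule.exists_le_ker_of_notMem`); ONE gives `f`, `m` with
`f ⊗ m ∈ C1`, `l m ≠ 0`. `J = {m | f ⊗ m ∈ C1}` is a code on `Ω_0` closed under the translations and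
multipliers for `p' ∈ S` and not contained in `V`. Apply the induction hypothesis to `J`; the word
`f ⊗ h` has the weight `wt f * wt h`. -/
def S_TEN : Prop := ∀ (K : Type) [Field K] [Fintype K] [DecidableEq K] (S : Finset ℕ) (Ω : Type)
  [Fintype Ω] (T : (p : ℕ) → ZMod p → Ω → Ω) (a : (p : ℕ) → Ω → ZMod p),
  (∀ p ∈ S, p.Prime ∧ ¬ p ∣ Fintype.card K * (Fintype.card K - 1)) → Frame S T a →
  ∀ C : Submodule K (Ω → K), FrameCode (Fintype.card K) S T a C →
  ¬ C ≤ ⨆ p ∈ S, InvT K T p →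
  ∃ c ∈ C, c ≠ 0 ∧ (Fintype.card K + 1) ^ S.card * hammingNorm c ≤
    Fintype.card K ^ S.card * Fintype.card Ω

/-- TENF (from TEN; compare `Pool/Agent/H633/CY/Ext.lean`). The same over `F` with `q` elements for
the multiplier `q ^ 2`, by passing to `K` with `q ^ 2` elements.
Proof. `K = FiniteField.Extension F (ringChar F) 2`, `C_K = {c : Ω → K | φ ∘ c ∈ C for all
F-linear φ : K → F}`: a `K`-subspace, closed under the same maps of `Ω`. It contains
`algebraMap ∘ c`, `c ∈ C`; if `algebraMap ∘ c ∈ ⨆ InvT K T p` then `φ ∘ algebraMap ∘ c ∈ ⨆ InvT F T p` for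
all `φ` (the map `c ↦ φ ∘ c` is additive and maps `InvT K T p` into `InvT F T p`; use it as an
`F`-linear map and `Submodule.iSup_induction` or the like), with `φ 1 = 1`. So `C_K` is not contained in
`⨆ InvT K T p`. `q + 1 < p` implies that `p` does not divide `q ^ 2 (q ^ 2 - 1)`. TEN gives `c ∈ C_K`,
`c ≠ 0`; take `φ` with `φ ∘ c ≠ 0`. -/
def S_TENF : Prop := ∀ (F : Type) [Field F] [Fintype F] [DecidableEq F] (S : Finset ℕ) (Ω : Type)
  [Fintype Ω] (T : (p : ℕ) → ZMod p → Ω → Ω) (a : (p : ℕ) → Ω → ZMod p),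
  (∀ p ∈ S, p.Prime ∧ Fintype.card F + 1 < p) → Frame S T a →
  ∀ C : Submodule F (Ω → F), FrameCode (Fintype.card F ^ 2) S T a C →
  ¬ C ≤ ⨆ p ∈ S, InvT F T p →
  ∃ c ∈ C, c ≠ 0 ∧ (Fintype.card F ^ 2 + 1) ^ S.card * hammingNorm c ≤
    (Fintype.card F ^ 2) ^ S.card * Fintype.card Ω

/-- ALG. The algebraic main theorem (from MUL, FRM, PRJ1, PRJ2, DIMT, TENF).
Proof. `C` is not contained in `N = ⨆ InvT` by DIMT, so `D = C ⊓ ZeroT ≠ ⊥` by PRJ1; `D` is
`TwoSided` (the orbits of `T p` are the cosets of a normal subgroup). Take `B ≤ D` from MUL. It is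
a `FrameCode` for `q ^ 2`, and it is not contained in `N` by PRJ2. Apply TENF. -/
def S_ALG : Prop := ∀ (F : Type) [Field F] [Fintype F] [DecidableEq F] (S : Finset ℕ) (G : Type)
  [Group G] [Fintype G],
  (∀ p ∈ S, GoodN (Fintype.card G) p ∧ Fintype.card F + 1 < p) →
  ∀ C : Submodule F (G → F), TwoSided C →
  ∑ p ∈ S, Fintype.card G / p < Module.finrank F C →
  ∃ c ∈ C, c ≠ 0 ∧ (Fintype.card F ^ 2 + 1) ^ S.card * hammingNorm c ≤
    (Fintype.card F ^ 2) ^ S.card * Fintype.card G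

/-! ## Number theory -/

open Classical in
/-- The large primes of `PP 2 N`. -/
noncomputable def PPL (η : ℝ) (N : ℕ) : Finset ℕ :=
  (Pool.Agent.H144.CY.PP 2 N).filter (fun p : ℕ => Real.exp (Real.log N ^ (1 - η)) < p)

/-- LOWL. Lower bound for `∑ 1 / p` over the large primes of `PP 2 N`.
Proof. Modify `Pool/Agent/H633/CY/P_LOW1.lean` (theorem `t_low1`; it derives `S_LOW1` from
`S_DYA1`). Let `u = log log N`. One may assume `η ≤ 1 / 2` (the set grows with `η`). For
`U = 2 ^ j` with `J1 ≤ j < J2`, `J1 = ⌈2 exp ((1 - η) u)⌉`, `J2 = ⌊exp u / 2⌋`: `2 U ≤ √N`,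
`U ≥ 2 ^ J1 > exp (exp ((1 - η) u)) = exp ((log N) ^ (1 - η))` (as `2 log 2 > 1`), and
`log log U ≥ (1 - η) u ≥ u / 3`, so DYA1 with `v = u` gives
`∑_{p ∈ (U, 2 U]} 1 / p ≥ c / (2 log U log u)`. Sum over `j`:
`∑ 1 / j ≥ log (J2 / J1) ≥ η u - 3 ≥ η u / 2` for large `u`. -/
def S_LOWL : Prop := ∀ η : ℝ, 0 < η → η < 1 → ∃ c : ℝ, 0 < c ∧ ∃ N0 : ℕ, ∀ N : ℕ, N0 ≤ N →
  c * (Real.log (Real.log N) / Real.log (Real.log (Real.log N))) ≤ ∑ p ∈ PPL η N, (1 : ℝ) / p

open Classical in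
/-- COLR (from `S_BTS`). Few numbers `n` have a prime factor `p` and a prime factor `r > y` with
`r ∣ p - 1`.
Proof. Since `p ≠ r`, `p r ∣ n`. The number is at most `∑_{r > y} ∑_{p ≤ N, r ∣ p - 1} N / (p r)`,
which is `≤ N ∑_{r > y} C u / r ^ 2 ≤ 2 C N u / y`, `u = log log N`. Compare
`Pool/Agent/H633/CY/P_COL.lean`. -/
def S_COLR : Prop := ∃ C : ℝ, 0 < C ∧ ∀ N : ℕ, 16 ≤ N → ∀ y : ℝ, 1 ≤ y →
  ((((Icc 1 N).filter (fun n => ∃ r p : ℕ, r.Prime ∧ p.Prime ∧ y < r ∧ r ∣ p - 1 ∧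
    r ∣ n ∧ p ∣ n)).card : ℕ) : ℝ) ≤ C * (N * Real.log (Real.log N) / y)

open Classical in
/-- DIV. Few numbers have a prime factor `p > L` and a divisor `d > 1`, `d ≡ 1 (mod p)`.
Proof. `d` and `p` are coprime, so `p d ∣ n`, `d = 1 + j p`, `1 ≤ j ≤ N`. The number is at most
`∑_{L < p ≤ N} ∑_{1 ≤ j ≤ N} N / (p (1 + j p)) ≤ N ∑_{p > L} 1 / p ^ 2 ∑_{j ≤ N} 1 / j ≤
N (2 / L) (1 + log N)` (sum over all integers `p > L`; `∑_{p > L} 1 / p ^ 2 ≤ 2 / L` for
`L ≥ 1`). -/
def S_DIV : Prop := ∀ N : ℕ, 1 ≤ N → ∀ L : ℝ, 1 ≤ L →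
  ((((Icc 1 N).filter (fun n => ∃ p d : ℕ, p.Prime ∧ L < p ∧ p ∣ n ∧ d ∣ n ∧ d ≡ 1 [MOD p] ∧
    d ≠ 1)).card : ℕ) : ℝ) ≤ 2 * (N * (1 + Real.log N) / L)

/-- `n` has many good primes. -/
def ManyG (c η : ℝ) (n : ℕ) : Prop := ∃ S : Finset ℕ,
  (∀ p ∈ S, GoodN n p ∧ Real.exp (Real.log n ^ (1 - η)) < p) ∧
  c * (Real.log (Real.log n) / Real.log (Real.log (Real.log n))) ≤ S.card

open Classical in
/-- NTG (from LOWL, COLR, DIV and `S_TUR`, `S_COL`, `S_GOOD2` of helper633). Almost all numbers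
have many good primes.
Proof. Let `u = log log N`, `y = u ^ (11 / 5)`. Outside of a set of at most
`12 N / E + C N u ^ 2 / y + C N u / y + 2 N (1 + log N) / L + √N` numbers
(`E = ∑_{p ∈ PPL η N} 1 / p → ∞`, `L = exp ((log N) ^ (1 - η))`) the number `n ≤ N` satisfies `√N < n`,
it has at least `E / 2` prime factors `p ∈ PPL η N` (TUR; `|PPL| ≤ √N ≤ N`), has no collision
above `y` (COL, COLR) and no divisor `d > 1`, `d ≡ 1 (mod p)`, for `p > L` (DIV). Let `S` be the set
of these prime factors. By GOOD2 they are `Good`; `(p - 1) / 2` is prime to `n / p` since an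
odd prime `r` dividing both has `r ∣ p - 1`, so `r > y` (definition of `PP`), against COLR (`(p - 1) / 2`
is odd as `8 ∣ p + 1`). Finally `exp ((log n) ^ (1 - η)) ≤ L < p` and
`log log n / log log log n ≤ log log N / log log log N` (`x / log x` is increasing for
`x ≥ e`). -/
def S_NTG : Prop := ∀ η : ℝ, 0 < η → η < 1 → ∃ c : ℝ, 0 < c ∧
  Filter.Tendsto (fun N : ℕ =>
    (((range N).filter (fun n => ¬ ManyG c η n)).card : ℝ) / N) Filter.atTop (nhds 0)

end Pool.Agent.H144.TW
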